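import Mathlib

/-!
# Linear relations between the conjugates of an element of trace zero

If the Galois group is doubly transitive on the conjugates, or if their number is a prime, then
the only rational linear relations between the conjugates of a nonzero element of trace zero are the
multiples of the trace.
-/

set_option autoImplicit false

open Polynomial

namespace Pool.Agent.Run7.h541.Pf

section

variable {I E : Type} [Fintype I] [DecidableEq I] [Field E] [CharZero E]

/-- doubly transitive groups -/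
theorem two_trans (H : Subgroup (Equiv.Perm I))
    (h2 : ∀ σ τ τ' : I, τ ≠ σ → τ' ≠ σ → ∃ π ∈ H, π σ = σ ∧ π τ = τ')
    {W : I → E} (hsum : ∑ τ, W τ = 0) (hne : ∀ τ, W τ ≠ 0) {a : I → ℤ}
    (hrel : ∀ π ∈ H, ∑ τ, (a τ : E) * W (π τ) = 0) (σ τ : I) : a σ = a τ := by
  classical
  suffices h : ∀ σ : I, ((Fintype.card I : ℤ)) * a σ = ∑ τ, a τ by
    have h3 := (h σ).trans (h τ).symm
    have h4 : (Fintype.card I : ℤ) ≠ 0 := by
      have : 0 < Fintype.card I := Fintype.card_pos_iff.2 ⟨σ⟩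
      omega
    exact mul_left_cancel₀ h4 h3
  intro σ
  obtain ⟨S, hS⟩ : ∃ S : Finset (Equiv.Perm I),
    S = Finset.univ.filter (fun π : Equiv.Perm I => π ∈ H ∧ π σ = σ) := ⟨_, rfl⟩
  have hSm : ∀ π, π ∈ S ↔ π ∈ H ∧ π σ = σ := fun π => by
    rw [hS, Finset.mem_filter]
    exact ⟨fun h => h.2, fun h => ⟨Finset.mem_univ _, h⟩⟩
  have hS1 : (1 : Equiv.Perm I) ∈ S := (hSm 1).2 ⟨H.one_mem, rfl⟩
  have hS0 : (S.card : E) ≠ 0 := by
    have : 0 < S.card := Finset.card_pos.2 ⟨1, hS1⟩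
    exact_mod_cast this.ne'
  obtain ⟨T, hT⟩ : ∃ T : I → E, T = fun τ => ∑ π ∈ S, W (π τ) := ⟨_, rfl⟩
  have hTσ : T σ = S.card * W σ := by
    rw [hT]
    simp only
    rw [Finset.sum_congr rfl fun π hπ => by rw [((hSm π).1 hπ).2], Finset.sum_const,
      nsmul_eq_mul]
  have hTc : ∀ τ τ' : I, τ ≠ σ → τ' ≠ σ → T τ = T τ' := by
    intro τ τ' hτ hτ'
    obtain ⟨g, hg, hgσ, hgτ⟩ := h2 σ τ' τ hτ' hτ
    rw [hT]
    simp only
    refine Finset.sum_bij (fun π _ => π * g) (fun π hπ => ?_) (fun π _ π' _ h => ?_)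
      (fun π hπ => ?_) (fun π _ => ?_)
    · rw [hSm] at hπ ⊢
      exact ⟨H.mul_mem hπ.1 hg, by rw [Equiv.Perm.mul_apply, hgσ, hπ.2]⟩
    · exact mul_right_cancel h
    · refine ⟨π * g⁻¹, ?_, by simp⟩
      rw [hSm] at hπ ⊢
      refine ⟨H.mul_mem hπ.1 (H.inv_mem hg), ?_⟩
      have h3 : g⁻¹ σ = σ := by
        rw [Equiv.Perm.inv_eq_iff_eq]
        exact hgσ.symm
      rw [Equiv.Perm.mul_apply, h3, hπ.2]
    · rw [Equiv.Perm.mul_apply, hgτ]
  have hTs : ∑ τ, T τ = 0 := by
    rw [hT]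
    simp only
    rw [Finset.sum_comm]
    refine Finset.sum_eq_zero fun π _ => ?_
    rw [Equiv.sum_comp π W, hsum]
  have hTa : ∑ τ, (a τ : E) * T τ = 0 := by
    rw [hT]
    simp only [Finset.mul_sum]
    rw [Finset.sum_comm]
    exact Finset.sum_eq_zero fun π hπ => hrel π ((hSm π).1 hπ).1
  by_cases hX : ∃ τ₁, τ₁ ≠ σ
  · obtain ⟨τ₁, hτ₁⟩ := hX
    have e1 : ∑ τ ∈ Finset.univ.erase σ, T τ = ((Fintype.card I : E) - 1) * T τ₁ := by
      rw [Finset.sum_congr rfl fun τ hτ => hTc τ τ₁ (Finset.ne_of_mem_erase hτ) hτ₁,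
        Finset.sum_const, nsmul_eq_mul, Finset.card_erase_of_mem (Finset.mem_univ σ),
        Finset.card_univ, Nat.cast_sub (Fintype.card_pos_iff.2 ⟨σ⟩), Nat.cast_one]
    have e2 : ∑ τ ∈ Finset.univ.erase σ, (a τ : E) * T τ =
        ((∑ τ, a τ : ℤ) - (a σ : E)) * T τ₁ := by
      rw [Finset.sum_congr rfl fun τ hτ => by
        rw [hTc τ τ₁ (Finset.ne_of_mem_erase hτ) hτ₁], ← Finset.sum_mul]
      congr 1
      rw [← Finset.add_sum_erase Finset.univ a (Finset.mem_univ σ)]
      push_cast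
      ring
    rw [← Finset.add_sum_erase Finset.univ _ (Finset.mem_univ σ), e1, hTσ] at hTs
    rw [← Finset.add_sum_erase Finset.univ _ (Finset.mem_univ σ), e2, hTσ] at hTa
    have e3 : (S.card * W σ) *
        ((Fintype.card I : E) * a σ - (∑ τ, a τ : ℤ)) = 0 := by
      linear_combination ((Fintype.card I : E) - 1) * hTa - ((∑ τ, a τ : ℤ) - (a σ : E)) * hTs
    have e4 : (Fintype.card I : E) * a σ - (∑ τ, a τ : ℤ) = 0 :=
      (mul_eq_zero.1 e3).resolve_left (mul_ne_zero hS0 (hne σ))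
    rw [sub_eq_zero] at e4
    exact_mod_cast e4
  · push Not at hX
    have e1 : ∀ τ, a τ = a σ := fun τ => by rw [hX τ]
    rw [Finset.sum_congr rfl fun τ _ => e1 τ, Finset.sum_const, Finset.card_univ, nsmul_eq_mul]

/-- groups of prime degree -/
theorem prime_trans (H : Subgroup (Equiv.Perm I)) (hp : (Fintype.card I).Prime)
    (h1 : ∀ σ τ : I, ∃ π ∈ H, π σ = τ)
    {W : I → E} (hsum : ∑ τ, W τ = 0) (hne : ∀ τ, W τ ≠ 0) {a : I → ℤ}
    (hrel : ∀ π ∈ H, ∑ τ, (a τ : E) * W (π τ) = 0) (σ τ : I) : a σ = a τ := by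
  classical
  obtain ⟨p, hpc⟩ : ∃ p, p = Fintype.card I := ⟨_, rfl⟩
  rw [← hpc] at hp
  have hpf : Fact p.Prime := ⟨hp⟩
  -- an element of order `p`
  have hdvd : p ∣ Nat.card H := by
    have h3 : MulAction.IsPretransitive H I := ⟨fun x y => by
      obtain ⟨π, hπ, h⟩ := h1 x y
      exact ⟨⟨π, hπ⟩, h⟩⟩
    have h4 := MulAction.index_stabilizer_of_transitive H σ
    rw [Nat.card_eq_fintype_card, ← hpc] at h4
    rw [← h4]
    exact Subgroup.index_dvd_card _
  obtain ⟨⟨π, hπH⟩, hπ⟩ := exists_prime_orderOf_dvd_card' p hdvd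
  have hπ' : orderOf π = p := by
    rw [← hπ]
    exact (Subgroup.orderOf_mk π hπH).symm
  have hcyc : π.IsCycle := Equiv.Perm.isCycle_of_prime_order'' (by rw [← hpc]; exact hp)
    (by rw [hπ', hpc])
  have hsupp : π.support = Finset.univ := by
    rw [← Finset.card_eq_iff_eq_univ, hcyc.orderOf.symm.trans hπ', hpc]
  have hmove : ∀ x, π x ≠ x := fun x => by
    rw [← Equiv.Perm.mem_support, hsupp]
    exact Finset.mem_univ x
  -- the orbit
  have hinj : ∀ x : I, Function.Injective (fun i : Fin p => (π ^ (i : ℕ)) x) := by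
    intro x
    have key : ∀ i j : ℕ, i ≤ j → j < p → (π ^ i) x = (π ^ j) x → i = j := by
      intro i j hij hj h
      have h3 : (π ^ (j - i)) x = x := by
        have h4 : (π ^ i) ((π ^ (j - i)) x) = (π ^ i) x := by
          rw [← Equiv.Perm.mul_apply, ← pow_add, Nat.add_sub_cancel' hij, h]
        exact (π ^ i).injective h4
      have h5 := (hcyc.pow_eq_one_iff' (hmove x)).2 h3
      have h6 := orderOf_dvd_of_pow_eq_one h5
      rw [hπ'] at h6
      have h7 : j - i = 0 := Nat.eq_zero_of_dvd_of_lt h6 (by omega)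
      omega
    intro i j h
    rcases le_total (i : ℕ) j with hij | hij
    · exact Fin.ext (key i j hij j.2 h)
    · exact Fin.ext (key j i hij i.2 h.symm).symm
  have hbij : ∀ x : I, Function.Bijective (fun i : Fin p => (π ^ (i : ℕ)) x) := fun x =>
    (Fintype.bijective_iff_injective_and_card _).2 ⟨hinj x, by rw [Fintype.card_fin, hpc]⟩
  have hreidx : ∀ (x : I) (f : I → E), ∑ τ, f τ = ∑ i ∈ Finset.range p, f ((π ^ i) x) := by
    intro x f
    rw [Finset.sum_range (fun i => f ((π ^ i) x))]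
    exact ((hbij x).sum_comp f).symm
  -- the shift
  let S : (I → E) →ₗ[ℚ] (I → E) :=
    { toFun := fun f x => f (π x)
      map_add' := fun f g => rfl
      map_smul' := fun c f => rfl }
  have hSp : ∀ (i : ℕ) (f : I → E) (x : I), ((S ^ i) f) x = f ((π ^ i) x) := by
    intro i
    induction i with
    | zero => intro f x; rfl
    | succ i ih =>
      intro f x
      rw [pow_succ, Module.End.mul_apply, ih, pow_succ']
      rfl
  have haev : ∀ (q : ℕ → ℚ) (f : I → E) (x : I),
      (aeval S (∑ i ∈ Finset.range p, C (q i) * X ^ i : ℚ[X]) f) x =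
        ∑ i ∈ Finset.range p, (q i : E) * f ((π ^ i) x) := by
    intro q f x
    rw [map_sum, LinearMap.sum_apply, Finset.sum_apply]
    refine Finset.sum_congr rfl fun i _ => ?_
    rw [map_mul, aeval_C, map_pow, aeval_X, Module.End.mul_apply, Module.algebraMap_end_apply,
      Pi.smul_apply, hSp, Rat.smul_def]
  obtain ⟨A, hA⟩ : ∃ A : ℚ[X], A = ∑ i ∈ Finset.range p, C ((a ((π ^ i) σ) : ℤ) : ℚ) * X ^ i :=
    ⟨_, rfl⟩
  have hAW : aeval S A W = 0 := by
    funext x
    rw [hA, haev]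
    obtain ⟨j, hj⟩ := (hbij σ).2 x
    simp only at hj
    have h3 := hrel (π ^ (j : ℕ)) (H.pow_mem hπH _)
    rw [hreidx σ] at h3
    rw [Pi.zero_apply, ← h3]
    refine Finset.sum_congr rfl fun i _ => ?_
    rw [← hj, ← Equiv.Perm.mul_apply, ← Equiv.Perm.mul_apply, ← pow_add, ← pow_add, add_comm i]
    push_cast
    rfl
  have hΦ : cyclotomic p ℚ = ∑ i ∈ Finset.range p, C (1 : ℚ) * X ^ i := by
    rw [cyclotomic_prime]
    simp
  have hΦW : aeval S (cyclotomic p ℚ) W = 0 := by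
    funext x
    rw [hΦ, haev (fun _ => 1)]
    have h3 := hreidx x W
    rw [hsum] at h3
    rw [Pi.zero_apply, h3]
    refine Finset.sum_congr rfl fun i _ => ?_
    rw [Rat.cast_one, one_mul]
  have hdiv : cyclotomic p ℚ ∣ A := by
    by_contra hnd
    have hirr := cyclotomic.irreducible_rat hp.pos
    have hco := (hirr.coprime_iff_not_dvd.2 hnd)
    obtain ⟨u, v, huv⟩ := hco
    have h3 : W = 0 := by
      have h4 := congrArg (fun q : ℚ[X] => aeval S q W) huv
      simp only [map_add, map_mul, map_one, LinearMap.add_apply, Module.End.mul_apply,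
        Module.End.one_apply] at h4
      rw [hΦW, hAW, map_zero, map_zero, add_zero] at h4
      exact h4.symm
    exact hne σ (by rw [h3]; rfl)
  have hcoef : ∀ i < p, A.coeff i = ((a ((π ^ i) σ) : ℤ) : ℚ) := by
    intro i hi
    rw [hA, finsetSum_coeff, Finset.sum_eq_single i]
    · rw [coeff_C_mul, coeff_X_pow_self, mul_one]
    · intro j _ hj
      rw [coeff_C_mul, coeff_X_pow, if_neg (Ne.symm hj), mul_zero]
    · intro h
      exact absurd (Finset.mem_range.2 hi) h
  have hdeg : A.natDegree ≤ p - 1 := by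
    rw [hA]
    refine natDegree_sum_le_of_forall_le _ _ fun i hi => ?_
    refine (natDegree_C_mul_X_pow_le _ _).trans ?_
    have := Finset.mem_range.1 hi
    omega
  obtain ⟨B, hB⟩ := hdiv
  have hB0 : ∃ b : ℚ, B = C b := by
    by_cases hA0 : A = 0
    · refine ⟨0, ?_⟩
      rw [hA0] at hB
      rw [C_0]
      exact (mul_eq_zero.1 hB.symm).resolve_left (cyclotomic_ne_zero p ℚ)
    · refine ⟨B.coeff 0, eq_C_of_natDegree_eq_zero ?_⟩
      have hBn : B ≠ 0 := by
        rintro rfl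
        rw [mul_zero] at hB
        exact hA0 hB
      have h3 := congrArg natDegree hB
      rw [natDegree_mul (cyclotomic_ne_zero p ℚ) hBn, natDegree_cyclotomic, Nat.totient_prime hp]
        at h3
      omega
  obtain ⟨b, hb⟩ := hB0
  have hall : ∀ i < p, A.coeff i = b := by
    intro i hi
    rw [hB, hb, mul_comm, coeff_C_mul, hΦ, finsetSum_coeff, Finset.sum_eq_single i]
    · rw [coeff_C_mul, coeff_X_pow_self, mul_one, mul_one]
    · intro j _ hj
      rw [coeff_C_mul, coeff_X_pow, if_neg (Ne.symm hj), mul_zero]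
    · intro h
      exact absurd (Finset.mem_range.2 hi) h
  have hfin : ∀ x : I, ((a x : ℤ) : ℚ) = b := by
    intro x
    obtain ⟨j, hj⟩ := (hbij σ).2 x
    simp only at hj
    rw [← hj, ← hcoef j j.2, hall j j.2]
  have h3 := (hfin σ).trans (hfin τ).symm
  exact_mod_cast h3

end

end Pool.Agent.Run7.h541.Pf
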