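import Pool.Agent.Run7.h541.Pf.Mon
import Pool.Agent.Run7.h541.Pf.Grp
import Pool.Agent.W602.GT.KGen
import Pool.Agent.W602.GT.KPsefS
import Pool.Agent.Y184.NT.TrForm

/-!
# The relations between the conjugates: prime degree and doubly transitive monodromy
-/

set_option autoImplicit false
set_option linter.overlappingInstances false
set_option linter.unusedSectionVars false
set_option linter.unusedVariables false
set_option maxHeartbeats 4000000
set_option synthInstance.maxHeartbeats 400000

open FF Pool.Agent.N162.BC Pool.Agent.W603.LV Pool.Agent.W602.GT MvPolynomial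
open Pool.Agent.Y184.NT (trForm trForm_pluri trForm_reg)

namespace Pool.Agent.Run7.h541.Pf

open IntermediateField.algebraAdjoinAdjoin in
/-- rational varieties have no global canonical forms -/
theorem noform {M : Type} [Field M] [Algebra ℂ M] {n : ℕ} (hn : 1 ≤ n) {f : Fin n → M}
    (hf : AlgebraicIndependent ℂ f) (htop : IntermediateField.adjoin ℂ (Set.range f) = ⊤)
    (htr : Algebra.trdeg ℂ M = n) {ω : (Fin n → Derivation ℂ M M) → M} (hω : GlobalForm n ω)
    (D : Fin n → Derivation ℂ M M) : ω D = 0 := by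
  classical
  by_contra hD
  obtain ⟨m, rfl⟩ : ∃ m, n = m + 1 := ⟨n - 1, by omega⟩
  refine not_psef_of htr (IntermediateField.adjoin ℂ (f '' {0}ᶜ)) (σ := f 0) ?_ ?_
    (psef_of_kodGe ⟨1, one_pos, fun _ => ω, fun _ => ⟨hω.1, fun P hP D' hDP => ?_,
      fun P hP _ => hω.2 P hP⟩, D, hD, ?_⟩)
  · have h1 := ((AlgebraicIndependent.iff_transcendental_adjoin_image 0).1 hf).2
    intro h2
    apply h1
    exact (IsFractionRing.isAlgebraic_iff (Algebra.adjoin ℂ (f '' {0}ᶜ))
      (IntermediateField.adjoin ℂ (f '' {0}ᶜ)) M).2 h2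
  · rw [eq_top_iff]
    intro y _
    have h1 : y ∈ IntermediateField.adjoin ℂ (Set.range f) := by
      rw [htop]
      trivial
    have h2 : IntermediateField.adjoin ℂ (Set.range f) ≤
        (IntermediateField.adjoin (IntermediateField.adjoin ℂ (f '' {0}ᶜ)) {f 0}).restrictScalars
          ℂ := by
      rw [IntermediateField.adjoin_le_iff]
      rintro _ ⟨i, rfl⟩
      by_cases hi : i = 0
      · rw [hi]
        exact IntermediateField.mem_adjoin_simple_self _ _
      · have h3 : f i ∈ IntermediateField.adjoin ℂ (f '' {0}ᶜ) :=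
          IntermediateField.subset_adjoin _ _ ⟨i, by simpa using hi, rfl⟩
        exact IntermediateField.algebraMap_mem (IntermediateField.adjoin
          (IntermediateField.adjoin ℂ (f '' {0}ᶜ)) {f 0}) ⟨f i, h3⟩
    exact h2 h1
  · refine hω.2 P hP D' fun i g hg => ?_
    by_cases h0 : g = 0
    · rw [h0, map_zero]
      exact P.reg_zero
    · have h3 := P.reg_mul (hDP i g) hg
      rwa [div_mul_cancel₀ _ h0] at h3
  · rw [algebraicIndependent_empty_type_iff]
    exact (algebraMap ℂ M).injective

section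

variable {K : Type} [Field K] [Algebra ℂ K] {n : ℕ}

/-- the coordinates as elements of the base -/
def bx (x : Fin n → K) (i : Fin n) : base x := ⟨x i, mem_base x i⟩

theorem bx_indep {x : Fin n → K} (hx : AlgebraicIndependent ℂ x) :
    AlgebraicIndependent ℂ (bx x) :=
  AlgebraicIndependent.of_comp (base x).val hx

theorem bx_top (x : Fin n → K) : IntermediateField.adjoin ℂ (Set.range (bx x)) = ⊤ := by
  rw [eq_top_iff]
  rintro ⟨y, hy⟩ -
  have h1 : base x ≤ (IntermediateField.adjoin ℂ (Set.range (bx x))).map (base x).val := by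
    unfold base
    rw [IntermediateField.adjoin_le_iff]
    rintro _ ⟨i, rfl⟩
    exact ⟨bx x i, IntermediateField.subset_adjoin _ _ ⟨i, rfl⟩, rfl⟩
  obtain ⟨z, hz, hzy⟩ := h1 hy
  have h2 : z = ⟨y, hy⟩ := Subtype.ext hzy
  rw [← h2]
  exact hz

theorem trdeg_base {x : Fin n → K} (hx : IsTranscendenceBasis ℂ x) :
    Algebra.trdeg ℂ (base x) = n ∧ IsTranscendenceBasis ℂ (bx x) := by
  have h0 : Algebra.trdeg ℂ K = n := by
    rw [← hx.cardinalMk_eq_trdeg]
    simp
  have h1 := trdeg_add_eq ℂ (base x) (A := K)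
  have hal : Algebra.IsAlgebraic (base x) K := hx.isAlgebraic_field
  have h2 : Algebra.trdeg (base x) K = 0 := _root_.trdeg_eq_zero_iff.2 hal
  rw [h2, add_zero, h0] at h1
  refine ⟨h1, (bx_indep hx.1).isTranscendenceBasis_of_lift_trdeg_le_of_finite ?_⟩
  rw [h1]
  simp

/-- the traces of global forms are zero -/
theorem trace_zero [Algebra.EssFiniteType ℂ K] (hn : 1 ≤ n) {x : Fin n → K}
    (hx : IsTranscendenceBasis ℂ x) {f : K} (hf : GlobalForm n (coordForm x f)) :
    Algebra.trace (base x) K f = 0 := by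
  classical
  have hfin := finite_base hx
  have hess : Algebra.EssFiniteType ℂ (base x) := by
    rw [← IntermediateField.fg_top_iff]
    exact ⟨Finset.univ.image (bx x), by
      rw [Finset.coe_image, Finset.coe_univ, Set.image_univ, bx_top]⟩
  obtain ⟨htr, hb⟩ := trdeg_base hx
  choose E0 hE0 using fun i : Fin n => Pool.Agent.W602.GT.exists_der (bx x) hb
    fun j => if i = j then (1 : base x) else 0
  choose E' hE' using fun i : Fin n =>
    Pool.Agent.Y172.exists_lift (k := ℂ) (K := base x) (L := K) htr (E0 i)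
  have h1 : coordForm x f E' = f := by
    have h2 : (Matrix.of fun i j => E' i (x j) : Matrix (Fin n) (Fin n) K) = 1 := by
      ext i j
      have h3 : x j = algebraMap (base x) K (bx x j) := rfl
      rw [Matrix.of_apply, h3, hE', hE0, Matrix.one_apply]
      split_ifs <;> simp
    unfold coordForm
    rw [h2, Matrix.det_one, one_mul]
  have h2 : GlobalForm n (trForm (bx x) (Algebra.trace (base x) K f)) := by
    refine ⟨trForm_pluri _ _, fun P hP => ?_⟩
    have h3 := trForm_reg htr hb hE0 hE' (coordForm x f) hf.1 hf.2 P hP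
    rwa [h1] at h3
  have h3 := noform hn (bx_indep hx.1) (bx_top x) htr h2 E0
  unfold trForm at h3
  have h4 : (Matrix.of fun i j => E0 i (bx x j) : Matrix (Fin n) (Fin n) (base x)) = 1 := by
    ext i j
    rw [Matrix.of_apply, hE0, Matrix.one_apply]
  rwa [h4, Matrix.det_one, one_mul] at h3

end

section

variable {M K E : Type} [Field M] [Field K] [Field E] [Algebra M K] [Algebra M E]

/-- the permutation of the embeddings given by an automorphism -/
def toPerm (g : E ≃ₐ[M] E) : Equiv.Perm (K →ₐ[M] E) where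
  toFun τ := (g : E →ₐ[M] E).comp τ
  invFun τ := (g.symm : E →ₐ[M] E).comp τ
  left_inv τ := by
    ext a
    exact g.symm_apply_apply _
  right_inv τ := by
    ext a
    exact g.apply_symm_apply _

theorem toPerm_apply (g : E ≃ₐ[M] E) (τ : K →ₐ[M] E) (a : K) : toPerm g τ a = g (τ a) := rfl

/-- the Galois group as a permutation group -/
def Gp (M K E : Type) [Field M] [Field K] [Field E] [Algebra M K] [Algebra M E] :
    Subgroup (Equiv.Perm (K →ₐ[M] E)) where
  carrier := {π | ∃ g : E ≃ₐ[M] E, ∀ τ a, π τ a = g (τ a)}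
  mul_mem' := by
    rintro π π' ⟨g, hg⟩ ⟨g', hg'⟩
    refine ⟨g * g', fun τ a => ?_⟩
    rw [Equiv.Perm.mul_apply, hg, hg']
    rfl
  one_mem' := ⟨1, fun τ a => rfl⟩
  inv_mem' := by
    rintro π ⟨g, hg⟩
    refine ⟨g.symm, fun τ a => ?_⟩
    have h1 := hg (π⁻¹ τ) a
    rw [← Equiv.Perm.mul_apply, mul_inv_cancel, Equiv.Perm.one_apply] at h1
    rw [h1, g.symm_apply_apply]

theorem toPerm_mem (g : E ≃ₐ[M] E) : (toPerm g : Equiv.Perm (K →ₐ[M] E)) ∈ Gp M K E :=
  ⟨g, fun τ a => rfl⟩

/-- the Galois group is transitive on the embeddings -/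
theorem exists_aut [IsAlgClosed E] [Algebra.IsAlgebraic M E] (σ τ : K →ₐ[M] E) :
    ∃ g : E ≃ₐ[M] E, ∀ a, g (σ a) = τ a := by
  let i1 : Algebra K E := σ.toRingHom.toAlgebra
  have i2 : IsScalarTower M K E := IsScalarTower.of_algebraMap_eq fun z => (σ.commutes z).symm
  have i3 : Algebra.IsAlgebraic K E := Algebra.IsAlgebraic.tower_top (K := M) K
  obtain ⟨φ, hφ⟩ := IsAlgClosed.surjective_domRestrict_of_isAlgebraic (K := M) (L := K)
    (M := E) (E := E) τ
  refine ⟨AlgEquiv.ofBijective φ (Algebra.IsAlgebraic.algHom_bijective φ), fun a => ?_⟩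
  exact congrArg (fun ψ : K →ₐ[M] E => ψ a) hφ

end

section

variable {K : Type} [Field K] [Algebra ℂ K] {n : ℕ}

theorem only_of [Algebra.EssFiniteType ℂ K] (hn : 1 ≤ n) {x : Fin n → K}
    (hx : IsTranscendenceBasis ℂ x) {k : ℕ} {f : K} (hf0 : f ≠ 0) (hf : Coeff x k f)
    (h : (Module.finrank (base x) K).Prime ∨ DoublyTransitive x) : OnlyTrace x k := by
  classical
  intro a ha σ τ
  have hfin := finite_base hx
  have hcM : CharZero (base x) :=
    charZero_of_injective_algebraMap (algebraMap ℂ (base x)).injective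
  have hcE : CharZero (AlgebraicClosure (base x)) :=
    charZero_of_injective_algebraMap (algebraMap (base x) (AlgebraicClosure (base x))).injective
  have hglob : GlobalForm n (coordForm x f) := by
    have h1 := hf 1 (by simp)
    rwa [map_one, one_mul] at h1
  have htr := trace_zero hn hx hglob
  have hsum : ∑ τ : K →ₐ[base x] AlgebraicClosure (base x), τ f = 0 := by
    rw [← trace_eq_sum_embeddings (AlgebraicClosure (base x)), htr, map_zero]
  have hne : ∀ τ : K →ₐ[base x] AlgebraicClosure (base x), τ f ≠ 0 := fun τ => by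
    rw [Ne, map_eq_zero]
    exact hf0
  have h1 := ha f hf
  rw [Finsupp.sum_fintype _ _ (fun τ => by rw [Int.cast_zero, zero_mul])] at h1
  have hrel : ∀ π ∈ Gp (base x) K (AlgebraicClosure (base x)),
      ∑ τ, (a τ : AlgebraicClosure (base x)) * (π τ) f = 0 := by
    rintro π ⟨g, hg⟩
    rw [← map_zero g, ← h1, map_sum]
    refine Finset.sum_congr rfl fun τ _ => ?_
    rw [hg, map_mul, map_intCast]
  rcases h with hp | h2
  · refine prime_trans (Gp (base x) K (AlgebraicClosure (base x))) ?_ (fun σ τ => ?_)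
      (W := fun τ => τ f) hsum hne hrel σ τ
    · rw [AlgHom.card]
      exact hp
    · obtain ⟨g, hg⟩ := exists_aut σ τ
      exact ⟨toPerm g, toPerm_mem g, by ext a; exact hg a⟩
  · refine two_trans (Gp (base x) K (AlgebraicClosure (base x))) (fun σ τ τ' h3 h4 => ?_)
      (W := fun τ => τ f) hsum hne hrel σ τ
    obtain ⟨g, hg, hg'⟩ := h2 σ τ σ τ' h3.symm h4.symm
    exact ⟨toPerm g, toPerm_mem g, by ext a; exact hg a, by ext a; exact hg' a⟩

end

end Pool.Agent.Run7.h541.Pf
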