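import Mathlib

/-!
# Functions on embeddings which are pulled back from two subfields

`K` is an extension of `k`, and `F`, `B` are intermediate fields. A function with finite support on the
embeddings of `K` into an algebraically closed field which depends only on the restriction to `F`, and
only on the restriction to `B`, depends only on the restriction to `F ⊓ B`; and if it is not zero then
`K` is algebraic over `F ⊓ B`.
-/

set_option autoImplicit false
set_option linter.unusedSectionVars false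

open Polynomial

namespace Pool.Agent.Run7.h541.Pf

section

variable {k K Ω : Type} [Field k] [Field K] [Algebra k K] [Field Ω] [Algebra k Ω]

/-- two embeddings which agree on `F` or on `B` -/
def Move (F B : IntermediateField k K) (σ τ : K →ₐ[k] Ω) : Prop :=
  (∀ a ∈ F, σ a = τ a) ∨ ∀ a ∈ B, σ a = τ a

/-- the classes of embeddings -/
def Cls (F B : IntermediateField k K) (σ τ : K →ₐ[k] Ω) : Prop :=
  Relation.EqvGen (Move F B) σ τ

variable {F B : IntermediateField k K}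

theorem cls_val {d : (K →ₐ[k] Ω) → ℤ}
    (hF : ∀ σ τ : K →ₐ[k] Ω, (∀ a ∈ F, σ a = τ a) → d σ = d τ)
    (hB : ∀ σ τ : K →ₐ[k] Ω, (∀ a ∈ B, σ a = τ a) → d σ = d τ) {σ τ : K →ₐ[k] Ω}
    (h : Cls F B σ τ) : d σ = d τ := by
  induction h with
  | rel x y h => exact h.elim (hF x y) (hB x y)
  | refl x => rfl
  | symm x y _ ih => exact ih.symm
  | trans x y z _ _ h1 h2 => exact h1.trans h2

theorem cls_meet {σ τ : K →ₐ[k] Ω} (h : Cls F B σ τ) {a : K} (haF : a ∈ F) (haB : a ∈ B) :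
    σ a = τ a := by
  induction h with
  | rel x y h => exact h.elim (fun h => h a haF) (fun h => h a haB)
  | refl x => rfl
  | symm x y _ ih => exact ih.symm
  | trans x y z _ _ h1 h2 => exact h1.trans h2

theorem cls_comp (g : Ω →ₐ[k] Ω) {σ τ : K →ₐ[k] Ω} (h : Cls F B σ τ) :
    Cls F B (g.comp σ) (g.comp τ) := by
  induction h with
  | rel x y h =>
    refine Relation.EqvGen.rel _ _ (h.imp (fun h a ha => ?_) fun h a ha => ?_)
    · rw [AlgHom.comp_apply, AlgHom.comp_apply, h a ha]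
    · rw [AlgHom.comp_apply, AlgHom.comp_apply, h a ha]
  | refl x => exact Relation.EqvGen.refl _
  | symm x y _ ih => exact Relation.EqvGen.symm _ _ ih
  | trans x y z _ _ h1 h2 => exact Relation.EqvGen.trans _ _ _ h1 h2

/-- the elements which are fixed by the automorphisms over a subfield -/
theorem fixed_mem [CharZero k] [IsAlgClosed Ω] (σ₀ : K →ₐ[k] Ω) (E : IntermediateField k K)
    (halg : ∀ b : Ω, ∃ p : Polynomial E, p ≠ 0 ∧
      p.eval₂ ((σ₀.comp E.val : E →ₐ[k] Ω) : E →+* Ω) b = 0) {b : Ω}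
    (hb : ∀ g : Ω →ₐ[k] Ω, (∀ a ∈ E, g (σ₀ a) = σ₀ a) → Function.Injective g → g b = b) :
    ∃ e ∈ E, σ₀ e = b := by
  let i1 : Algebra E Ω := (σ₀.comp E.val).toRingHom.toAlgebra
  have hi : ∀ e : E, algebraMap E Ω e = σ₀ e := fun _ => rfl
  have i2 : IsScalarTower k E Ω := IsScalarTower.of_algebraMap_eq fun z => by
    rw [hi]
    exact (σ₀.commutes z).symm
  have hcE : CharZero E := charZero_of_injective_algebraMap (algebraMap k E).injective
  have hal : Algebra.IsAlgebraic E Ω := by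
    refine ⟨fun b => ?_⟩
    obtain ⟨p, hp0, hp⟩ := halg b
    exact ⟨p, hp0, hp⟩
  have hcl : IsAlgClosure E Ω := ⟨inferInstance, hal⟩
  have hgal : IsGalois E Ω := IsAlgClosure.isGalois E Ω
  have h1 : b ∈ (⊥ : IntermediateField E Ω) := by
    rw [InfiniteGalois.mem_bot_iff_fixed]
    intro g
    refine hb ((g : Ω →ₐ[E] Ω).restrictScalars k) (fun a ha => ?_) g.injective
    exact g.commutes ⟨a, ha⟩
  obtain ⟨e, he⟩ := IntermediateField.mem_bot.1 h1
  exact ⟨e, e.2, he⟩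

open Classical in
/-- **Functions which are pulled back from two subfields.** -/
theorem meet [CharZero k] [IsAlgClosed Ω] [Algebra.EssFiniteType k K]
    (halgF : ∀ (σ : K →ₐ[k] Ω) (b : Ω), ∃ p : Polynomial F, p ≠ 0 ∧
      p.eval₂ ((σ.comp F.val : F →ₐ[k] Ω) : F →+* Ω) b = 0)
    (halgB : ∀ (σ : K →ₐ[k] Ω) (b : Ω), ∃ p : Polynomial B, p ≠ 0 ∧
      p.eval₂ ((σ.comp B.val : B →ₐ[k] Ω) : B →+* Ω) b = 0)
    {d : (K →ₐ[k] Ω) →₀ ℤ}
    (hF : ∀ σ τ : K →ₐ[k] Ω, (∀ a ∈ F, σ a = τ a) → d σ = d τ)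
    (hB : ∀ σ τ : K →ₐ[k] Ω, (∀ a ∈ B, σ a = τ a) → d σ = d τ) {σ₀ : K →ₐ[k] Ω}
    (h0 : d σ₀ ≠ 0) :
    (∀ a : K, IsAlgebraic (F ⊓ B : IntermediateField k K) a) ∧
      ∀ τ : K →ₐ[k] Ω, (∀ a, a ∈ F → a ∈ B → τ a = σ₀ a) → d τ = d σ₀ := by
  obtain ⟨S, hS⟩ : ∃ S : Finset (K →ₐ[k] Ω), S = d.support.filter fun τ => Cls F B σ₀ τ := ⟨_, rfl⟩
  have hSm : ∀ τ, τ ∈ S ↔ Cls F B σ₀ τ := by
    intro τ
    rw [hS, Finset.mem_filter, Finsupp.mem_support_iff]
    refine ⟨fun h => h.2, fun h => ⟨?_, h⟩⟩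
    rw [← cls_val hF hB h]
    exact h0
  have h0S : σ₀ ∈ S := (hSm _).2 (Relation.EqvGen.refl _)
  obtain ⟨P, hP⟩ : ∃ P : K → Polynomial Ω, P = fun a => ∏ τ ∈ S, (X - C (τ a)) := ⟨_, rfl⟩
  have hPm : ∀ a, (P a).Monic := by
    intro a
    rw [hP]
    exact monic_prod_of_monic _ _ fun τ _ => monic_X_sub_C _
  have hroot : ∀ a x, (P a).eval x = 0 ↔ ∃ τ ∈ S, x = τ a := by
    intro a x
    rw [hP]
    simp only [eval_prod, eval_sub, eval_X, eval_C, Finset.prod_eq_zero_iff, sub_eq_zero]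
  -- the coefficients are fixed
  have hfix : ∀ (E : IntermediateField k K), (∀ σ τ : K →ₐ[k] Ω, (∀ a ∈ E, σ a = τ a) →
      Move F B σ τ) → ∀ g : Ω →ₐ[k] Ω, (∀ a ∈ E, g (σ₀ a) = σ₀ a) → Function.Injective g →
      ∀ a i, g ((P a).coeff i) = (P a).coeff i := by
    intro E hE g hg hinj a i
    have hinj2 : Function.Injective fun τ : K →ₐ[k] Ω => g.comp τ := by
      intro τ τ' h
      ext y
      exact hinj (DFunLike.congr_fun h y)
    have himg : S.image (fun τ => g.comp τ) = S := by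
      refine Finset.eq_of_subset_of_card_le (fun τ' hτ' => ?_)
        (by rw [Finset.card_image_of_injective _ hinj2])
      obtain ⟨τ, hτ, rfl⟩ := Finset.mem_image.1 hτ'
      rw [hSm] at hτ ⊢
      refine Relation.EqvGen.trans _ (g.comp σ₀) _ (Relation.EqvGen.rel _ _ (hE _ _ fun a ha => ?_))
        (cls_comp g hτ)
      rw [AlgHom.comp_apply, hg a ha]
    have h1 : (P a).map (g : Ω →+* Ω) = P a := by
      conv_rhs => rw [hP]
      simp only
      rw [← himg, Finset.prod_image fun τ _ τ' _ h => hinj2 h, hP]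
      simp only [Polynomial.map_prod, Polynomial.map_sub, map_X, map_C]
      rfl
    have h2 : ((P a).map (g : Ω →+* Ω)).coeff i = g ((P a).coeff i) := by
      rw [coeff_map]
      rfl
    rw [← h2, h1]
  have hco : ∀ a i, ∃ z ∈ (F ⊓ B : IntermediateField k K), σ₀ z = (P a).coeff i := by
    intro a i
    obtain ⟨e, he, he'⟩ := fixed_mem σ₀ F (halgF σ₀) (b := (P a).coeff i)
      fun g hg hgi => hfix F (fun σ τ h => Or.inl h) g hg hgi a i
    obtain ⟨e2, he2, he2'⟩ := fixed_mem σ₀ B (halgB σ₀) (b := (P a).coeff i)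
      fun g hg hgi => hfix B (fun σ τ h => Or.inr h) g hg hgi a i
    have h1 : e = e2 := σ₀.toRingHom.injective (he'.trans he2'.symm)
    exact ⟨e, ⟨he, h1 ▸ he2⟩, he'⟩
  -- the polynomials over the intersection
  obtain ⟨Z, hZ⟩ : ∃ Z : IntermediateField k K, Z = F ⊓ B := ⟨_, rfl⟩
  rw [← hZ] at hco ⊢
  have hlift : ∀ a, ∃ Q : Z[X], Q.map ((σ₀.comp Z.val : Z →ₐ[k] Ω) : Z →+* Ω) = P a := by
    intro a
    have h1 : P a ∈ Polynomial.lifts ((σ₀.comp Z.val : Z →ₐ[k] Ω) : Z →+* Ω) := by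
      rw [Polynomial.lifts_iff_coeff_lifts]
      intro i
      obtain ⟨z, hz, hz'⟩ := hco a i
      exact ⟨⟨z, hz⟩, hz'⟩
    exact (Polynomial.mem_lifts _).1 h1
  choose Q hQ using hlift
  have hev : ∀ (τ : K →ₐ[k] Ω), (∀ z ∈ Z, τ z = σ₀ z) → ∀ a, τ (aeval a (Q a)) =
      (P a).eval (τ a) := by
    intro τ hτ a
    have h1 : ((τ.comp Z.val : Z →ₐ[k] Ω) : Z →+* Ω) =
        ((σ₀.comp Z.val : Z →ₐ[k] Ω) : Z →+* Ω) := by
      ext z
      exact hτ z z.2
    rw [← hQ a, ← h1, eval_map, aeval_def]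
    have h2 := Polynomial.hom_eval₂ (Q a) (algebraMap Z K) (τ : K →+* Ω) a
    exact h2
  have hrel : ∀ a, aeval a (Q a) = 0 := by
    intro a
    apply σ₀.toRingHom.injective
    rw [map_zero]
    exact (hev σ₀ (fun _ _ => rfl) a).trans ((hroot a _).2 ⟨σ₀, h0S, rfl⟩)
  have halgZ : ∀ a : K, IsAlgebraic Z a := by
    intro a
    refine ⟨Q a, fun h => (hPm a).ne_zero ?_, hrel a⟩
    rw [← hQ a, h, Polynomial.map_zero]
  refine ⟨halgZ, fun τ hτ => ?_⟩
  have hτZ : ∀ z ∈ Z, τ z = σ₀ z := by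
    intro z hz
    rw [hZ] at hz
    exact hτ z hz.1 hz.2
  have hA : Algebra.IsAlgebraic Z K := ⟨halgZ⟩
  have hess : Algebra.EssFiniteType Z K := Algebra.EssFiniteType.of_comp k Z K
  have hfin : FiniteDimensional Z K := Algebra.finite_of_essFiniteType_of_isAlgebraic
  have hcZ : CharZero Z := charZero_of_injective_algebraMap (algebraMap k Z).injective
  obtain ⟨a, ha⟩ := Field.exists_primitive_element Z K
  have h1 : (P a).eval (τ a) = 0 := by
    rw [← hev τ hτZ, hrel, map_zero]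
  obtain ⟨τ', hτ', h2⟩ := (hroot a _).1 h1
  rw [hSm] at hτ'
  have h3 : τ = τ' := by
    have h4 : ∀ z ∈ Z, τ z = τ' z := by
      intro z hz
      rw [hτZ z hz]
      rw [hZ] at hz
      exact cls_meet hτ' hz.1 hz.2
    ext y
    have hy : y ∈ IntermediateField.adjoin Z {a} := by
      rw [ha]
      exact IntermediateField.mem_top
    induction hy using IntermediateField.adjoin_induction with
    | mem e he =>
      rw [Set.mem_singleton_iff] at he
      rw [he, h2]
    | algebraMap z => exact h4 z z.2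
    | add e e' _ _ h5 h6 => rw [map_add, map_add, h5, h6]
    | inv e _ h5 => rw [map_inv₀, map_inv₀, h5]
    | mul e e' _ _ h5 h6 => rw [map_mul, map_mul, h5, h6]
  rw [h3]
  exact (cls_val hF hB hτ').symm

/-- embeddings into a field of the same transcendence degree -/
theorem alg_over {n : ℕ} (hK : Algebra.trdeg k K = n) (hΩ : Algebra.trdeg k Ω = n)
    (E : IntermediateField k K) (hE : ∀ a : K, IsAlgebraic E a) (σ : K →ₐ[k] Ω) (b : Ω) :
    ∃ p : Polynomial E, p ≠ 0 ∧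
      p.eval₂ ((σ.comp E.val : E →ₐ[k] Ω) : E →+* Ω) b = 0 := by
  let i1 : Algebra K Ω := σ.toRingHom.toAlgebra
  have i2 : IsScalarTower k K Ω := IsScalarTower.of_algebraMap_eq fun a => (σ.commutes a).symm
  have h1 : Algebra.trdeg k K + Algebra.trdeg K Ω = Algebra.trdeg k Ω := trdeg_add_eq k K
  rw [hK, hΩ] at h1
  have h2 : Algebra.trdeg K Ω = 0 := by
    have h3 : Algebra.trdeg K Ω < Cardinal.aleph0 :=
      lt_of_le_of_lt (le_add_self.trans h1.le) (Cardinal.natCast_lt_aleph0)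
    obtain ⟨t, ht⟩ := Cardinal.lt_aleph0.1 h3
    rw [ht] at h1 ⊢
    have h4 : n + t = n := by exact_mod_cast h1
    have h5 : t = 0 := by omega
    rw [h5]
    rfl
  have h3 : Algebra.IsAlgebraic K Ω := trdeg_eq_zero_iff.1 h2
  have h4 : Algebra.IsAlgebraic E K := ⟨hE⟩
  have h5 : Algebra.IsAlgebraic E Ω := Algebra.IsAlgebraic.trans E K Ω
  obtain ⟨p, hp0, hp⟩ := h5.isAlgebraic b
  exact ⟨p, hp0, hp⟩

end

end Pool.Agent.Run7.h541.Pf
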