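import Pool.Agent.Run7.h541.Pf.Rel

/-!
# From the relations on one fibre to the relations between the conjugates
-/

set_option autoImplicit false
set_option linter.overlappingInstances false
set_option linter.unusedSectionVars false
set_option linter.unusedVariables false
set_option maxHeartbeats 4000000
set_option synthInstance.maxHeartbeats 400000

open FF Pool.Agent.N162.BC Pool.Agent.W603.LV Pool.Agent.W602.GT MvPolynomial

namespace Pool.Agent.Run7.h541.Pf

variable {K Ω : Type} [Field K] [Algebra ℂ K] [Field Ω] [Algebra ℂ Ω] {n : ℕ}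

theorem mem_base (x : Fin n → K) (i : Fin n) : x i ∈ base x :=
  IntermediateField.subset_adjoin _ _ ⟨i, rfl⟩

theorem finite_base [Algebra.EssFiniteType ℂ K] {x : Fin n → K} (hx : IsTranscendenceBasis ℂ x) :
    FiniteDimensional (base x) K := by
  have hal : Algebra.IsAlgebraic (base x) K := hx.isAlgebraic_field
  have h3 : Algebra.EssFiniteType (base x) K := Algebra.EssFiniteType.of_comp ℂ (base x) K
  obtain ⟨s, hs⟩ := IntermediateField.fg_top (base x) K
  have h5 : FiniteDimensional (base x) (IntermediateField.adjoin (base x) (s : Set K)) :=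
    IntermediateField.finiteDimensional_adjoin (fun z _ => (hal.isAlgebraic z).isIntegral)
  rw [hs] at h5
  exact IntermediateField.topEquiv.toLinearEquiv.finiteDimensional

/-- embeddings which agree on the coordinates agree on the base -/
theorem agree {x : Fin n → K} {σ τ : K →ₐ[ℂ] Ω} (h : ∀ i, σ (x i) = τ (x i)) {a : K}
    (ha : a ∈ base x) : σ a = τ a := by
  unfold base at ha
  induction ha using IntermediateField.adjoin_induction with
  | mem e he =>
    obtain ⟨i, rfl⟩ := he
    exact h i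
  | algebraMap c => rw [AlgHom.commutes, AlgHom.commutes]
  | add a b _ _ ha hb => rw [map_add, map_add, ha, hb]
  | inv a _ ha => rw [map_inv₀, map_inv₀, ha]
  | mul a b _ _ ha hb => rw [map_mul, map_mul, ha, hb]

theorem const_of_only [Algebra.EssFiniteType ℂ K] [IsAlgClosed Ω] {x : Fin n → K}
    (hx : IsTranscendenceBasis ℂ x) {c : (K →ₐ[ℂ] Ω) →₀ ℤ}
    (hc : NullTrace n c) {k : ℕ} (hI : Independent x k c) (ho : OnlyTrace x k)
    (σ₀ σ₁ : K →ₐ[ℂ] Ω) (h01 : ∀ i, σ₀ (x i) = σ₁ (x i)) : c σ₀ = c σ₁ := by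
  classical
  have hfin := finite_base hx
  have hcM : CharZero (base x) :=
    charZero_of_injective_algebraMap (algebraMap ℂ (base x)).injective
  let i1 : Algebra (base x) Ω := (σ₀.comp (base x).val).toRingHom.toAlgebra
  have hi1 : ∀ l : base x, algebraMap (base x) Ω l = σ₀ l := fun l => rfl
  have i2 : IsScalarTower ℂ (base x) Ω := IsScalarTower.of_algebraMap_eq fun z => by
    rw [hi1]
    exact (σ₀.commutes z).symm
  let j : AlgebraicClosure (base x) →ₐ[base x] Ω := IsAlgClosed.lift
  have hj : Function.Injective j := j.toRingHom.injective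
  obtain ⟨emb, hemb⟩ : ∃ emb : (K →ₐ[base x] AlgebraicClosure (base x)) → (K →ₐ[ℂ] Ω),
    emb = fun τ => (j.comp τ).restrictScalars ℂ := ⟨_, rfl⟩
  have hemb' : ∀ τ a, emb τ a = j (τ a) := fun τ a => by rw [hemb]; rfl
  have hinj : Function.Injective emb := by
    intro τ τ' h
    ext a
    apply hj
    rw [← hemb', ← hemb', h]
  have hpt : ∀ τ, (fun i => emb τ (x i)) = fun i => σ₀ (x i) := by
    intro τ
    funext i
    rw [hemb']
    have h1 : τ (x i) = algebraMap (base x) _ (⟨x i, mem_base x i⟩ : base x) :=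
      τ.commutes ⟨x i, mem_base x i⟩
    rw [h1, AlgHom.commutes]
    rfl
  have hbij : Function.Bijective (fun τ : K →ₐ[base x] AlgebraicClosure (base x) =>
      (j.comp τ : K →ₐ[base x] Ω)) := by
    rw [Fintype.bijective_iff_injective_and_card]
    constructor
    · intro τ τ' h
      ext a
      apply hj
      exact congrArg (fun g : K →ₐ[base x] Ω => g a) h
    · rw [AlgHom.card, AlgHom.card]
  have hsurj : ∀ σ : K →ₐ[ℂ] Ω, (fun i => σ (x i)) = (fun i => σ₀ (x i)) → ∃ τ, emb τ = σ := by
    intro σ hσ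
    have h1 : ∀ i, σ (x i) = σ₀ (x i) := fun i => congrFun hσ i
    let σ' : K →ₐ[base x] Ω := { σ with commutes' := fun l => agree h1 l.2 }
    obtain ⟨τ, hτ⟩ := hbij.2 σ'
    refine ⟨τ, ?_⟩
    ext a
    rw [hemb']
    exact congrArg (fun g : K →ₐ[base x] Ω => g a) hτ
  obtain ⟨a, ha⟩ : ∃ a : (K →ₐ[base x] AlgebraicClosure (base x)) →₀ ℤ,
    a = c.comapDomain emb hinj.injOn := ⟨_, rfl⟩
  have ha' : ∀ τ, a τ = c (emb τ) := fun τ => by rw [ha]; rfl
  have hrel : ∀ f : K, Coeff x k f →
      (a.sum fun τ z => (z : AlgebraicClosure (base x)) * τ f) = 0 := by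
    intro f hf
    apply hj
    rw [map_zero, ← rel_fibre hx hc hI hf (fun i => σ₀ (x i))]
    have h1 : c.support.filter (fun σ => (fun i => σ (x i)) = fun i => σ₀ (x i)) =
        a.support.map ⟨emb, hinj⟩ := by
      ext σ
      rw [Finset.mem_filter, Finset.mem_map, Finsupp.mem_support_iff]
      constructor
      · rintro ⟨h1, h2⟩
        obtain ⟨τ, rfl⟩ := hsurj σ h2
        refine ⟨τ, ?_, rfl⟩
        rw [Finsupp.mem_support_iff, ha']
        exact h1
      · rintro ⟨τ, h1, rfl⟩
        rw [Finsupp.mem_support_iff, ha'] at h1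
        exact ⟨h1, hpt τ⟩
    rw [h1, Finset.sum_map, Finsupp.sum, map_sum]
    refine Finset.sum_congr rfl fun τ _ => ?_
    rw [map_mul, map_intCast, ha']
    simp only [Function.Embedding.coeFn_mk, hemb']
  obtain ⟨τ₀, hτ₀⟩ := hsurj σ₀ rfl
  obtain ⟨τ₁, hτ₁⟩ := hsurj σ₁ (funext fun i => (h01 i).symm)
  rw [← hτ₀, ← hτ₁, ← ha', ← ha']
  exact ho a hrel τ₀ τ₁

end Pool.Agent.Run7.h541.Pf
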