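import Pool.Agent.N162.BC.Pull
import Pool.Agent.Y184.NT.TrForm
import Pool.Agent.W73.PG.PULL
import Pool.Agent.Y172.Cov3
import Pool.Agent.Run7.h541.Pf.Mon
import Pool.Agent.Run7.h541.Pf.Meet

/-!
# The pullback of a family of zero-cycles to a covering

The first two theorems are those of `Pool/Agent/Run7/h902/SImage.lean` (helper902), with fewer imports.
-/

set_option autoImplicit false
set_option linter.overlappingInstances false
set_option linter.unusedSectionVars false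
set_option maxHeartbeats 4000000
set_option synthInstance.maxHeartbeats 400000

open FF Module Pool.Agent Pool.Agent.W602.GT
open Pool.Agent.N162.BC
open Pool.Agent.Y184.NT (trForm trForm_pluri)

namespace Pool.Agent.Run7.h541.Pf

section

variable {F K Ω : Type} [Field F] [Field K] [Field Ω] [Algebra ℂ F] [Algebra ℂ K] [Algebra ℂ Ω]
  [Algebra F K] [IsScalarTower ℂ F K] [FiniteDimensional F K] [IsAlgClosed Ω]

/-- the embeddings over a given one -/
theorem exists_fibre (ρ : F →ₐ[ℂ] Ω) : ∃ S : Finset (K →ₐ[ℂ] Ω),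
    (∀ σ, σ ∈ S ↔ σ.comp (IsScalarTower.toAlgHom ℂ F K) = ρ) ∧
      S.card = Module.finrank F K ∧
      ∀ w : K, ∑ σ ∈ S, σ w = ρ (Algebra.trace F K w) := by
  classical
  let i1 : Algebra F Ω := ρ.toRingHom.toAlgebra
  have hi1 : ∀ e : F, algebraMap F Ω e = ρ e := fun _ => rfl
  have i2 : IsScalarTower ℂ F Ω := IsScalarTower.of_algebraMap_eq fun a => (ρ.commutes a).symm
  have hcF : CharZero F := charZero_of_injective_algebraMap (algebraMap ℂ F).injective
  have hinj : Function.Injective (fun σ' : K →ₐ[F] Ω => σ'.restrictScalars ℂ) :=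
    AlgHom.restrictScalars_injective ℂ
  refine ⟨Finset.univ.image fun σ' : K →ₐ[F] Ω => σ'.restrictScalars ℂ, fun σ => ?_, ?_,
    fun w => ?_⟩
  · rw [Finset.mem_image]
    constructor
    · rintro ⟨σ', -, rfl⟩
      ext e
      exact σ'.commutes e
    · intro h
      exact ⟨{ σ with commutes' := fun e => DFunLike.congr_fun h e }, Finset.mem_univ _, rfl⟩
  · rw [Finset.card_image_of_injective _ hinj, Finset.card_univ]
    exact AlgHom.card _ _ _
  · rw [Finset.sum_image fun σ1 _ σ2 _ h => hinj h]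
    have h1 := trace_eq_sum_embeddings (K := F) (L := K) Ω (x := w)
    rw [hi1] at h1
    rw [h1]
    rfl

/-- **Pullback.** -/
theorem null_pull [Algebra.EssFiniteType ℂ F] [Algebra.EssFiniteType ℂ K] {n : ℕ}
    (hF : Algebra.trdeg ℂ F = (n : ℕ)) {c : (F →ₐ[ℂ] Ω) →₀ ℤ} (hc : NullTrace n c) :
    ∃ cK : (K →ₐ[ℂ] Ω) →₀ ℤ,
      (∀ σ, cK σ = c (σ.comp (IsScalarTower.toAlgHom ℂ F K))) ∧ NullTrace n cK ∧
      cK.mapDomain (restr F Ω) = Module.finrank F K • c := by
  classical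
  choose S hS hScard hStr using fun ρ : F →ₐ[ℂ] Ω => exists_fibre (K := K) ρ
  obtain ⟨cK, hcK⟩ : ∃ cK : (K →ₐ[ℂ] Ω) →₀ ℤ,
      ∀ σ, cK σ = c (σ.comp (IsScalarTower.toAlgHom ℂ F K)) := by
    refine ⟨Finsupp.onFinset (c.support.biUnion S)
      (fun σ => c (σ.comp (IsScalarTower.toAlgHom ℂ F K))) fun σ hσ => ?_, fun σ => rfl⟩
    rw [Finset.mem_biUnion]
    exact ⟨_, Finsupp.mem_support_iff.2 hσ, (hS _ σ).2 rfl⟩
  have hsupp : cK.support = c.support.biUnion S := by
    ext σ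
    rw [Finsupp.mem_support_iff, hcK, Finset.mem_biUnion]
    constructor
    · intro h
      exact ⟨_, Finsupp.mem_support_iff.2 h, (hS _ σ).2 rfl⟩
    · rintro ⟨ρ, hρ, hσ⟩
      rw [(hS ρ σ).1 hσ]
      exact Finsupp.mem_support_iff.1 hρ
  have hdisj : ∀ ρ1 ∈ c.support, ∀ ρ2 ∈ c.support, ρ1 ≠ ρ2 → Disjoint (S ρ1) (S ρ2) := by
    intro ρ1 _ ρ2 _ h12
    rw [Finset.disjoint_left]
    intro σ h1 h2
    exact h12 (((hS ρ1 σ).1 h1).symm.trans ((hS ρ2 σ).1 h2))
  refine ⟨cK, hcK, ?_, ?_⟩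
  · intro ω hω z E hz hE D
    obtain ⟨y, EF, hy, hEF⟩ := Pool.Agent.Y172.exists_crd (k := ℂ) (K := F) hF
    choose E' hE' using fun i => Pool.Agent.Y172.exists_lift (k := ℂ) (K := F) (L := K) hF (EF i)
    have hyK : IsTranscendenceBasis ℂ (fun j => algebraMap F K (y j)) := hy.algebraMap_comp
    have hE'd := Pool.Agent.Y172.lift_dual hEF hE'
    have h1 := hc (trForm y (Algebra.trace F K (ω E')))
      ⟨trForm_pluri y (Algebra.trace F K (ω E')),
      fun P hP => Pool.Agent.Y184.NT.trForm_reg hF hy hEF hE' ω hω.1 hω.2 P hP⟩ y EF hy hEF D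
    have hval : trForm y (Algebra.trace F K (ω E')) EF = Algebra.trace F K (ω E') := by
      have h4 : (Matrix.of fun i j => EF i (y j) : Matrix (Fin n) (Fin n) F) = 1 := by
        ext i j
        rw [Matrix.of_apply, hEF, Matrix.one_apply]
      rw [trForm, h4, Matrix.det_one, one_mul]
    have hpull : ∀ σ : K →ₐ[ℂ] Ω, pullback σ z E ω D =
        (Matrix.of fun i j => D i (σ (algebraMap F K (y j)))).det * σ (ω E') := by
      intro σ
      let i1 : Algebra K Ω := σ.toRingHom.toAlgebra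
      have i2 : IsScalarTower ℂ K Ω := IsScalarTower.of_algebraMap_eq fun a =>
        (σ.commutes a).symm
      have h2 := Pool.Agent.W73.PG.PULL.form_eq (L := Ω) z (fun j => algebraMap F K (y j)) hz hyK
        E E' hE hE'd ω hω.1 D
      rw [pow_one, pow_one] at h2
      exact h2
    rw [hsupp, Finset.sum_biUnion hdisj]
    rw [← h1]
    refine Finset.sum_congr rfl fun ρ _ => ?_
    have h3 : ∀ σ ∈ S ρ, (cK σ : Ω) * pullback σ z E ω D =
        (c ρ : Ω) * (Matrix.of fun i j => D i (ρ (y j))).det * σ (ω E') := by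
      intro σ hσ
      have h4 := (hS ρ σ).1 hσ
      have h5 : ∀ j, σ (algebraMap F K (y j)) = ρ (y j) := fun j => DFunLike.congr_fun h4 (y j)
      rw [hcK, h4, hpull]
      simp only [h5]
      ring
    rw [Finset.sum_congr rfl h3, ← Finset.mul_sum, hStr, pullback, hval]
    ring
  · ext ρ
    have h1 : (cK.mapDomain (restr F Ω)) ρ = ∑ σ ∈ cK.support with restr F Ω σ = ρ, cK σ := by
      rw [Finsupp.mapDomain, Finsupp.sum_apply, Finsupp.sum, Finset.sum_filter]
      refine Finset.sum_congr rfl fun σ' _ => ?_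
      rw [Finsupp.single_apply]
    have h2 : ∑ σ ∈ cK.support with restr F Ω σ = ρ, cK σ = ∑ σ ∈ S ρ, cK σ := by
      refine Finset.sum_subset (fun σ hσ => ?_) fun σ hσ hn => ?_
      · rw [Finset.mem_filter] at hσ
        exact (hS ρ σ).2 hσ.2
      · by_contra h
        exact hn (Finset.mem_filter.2 ⟨Finsupp.mem_support_iff.2 h, (hS ρ σ).1 hσ⟩)
    have h3 : ∑ σ ∈ S ρ, cK σ = ∑ _σ ∈ S ρ, c ρ := by
      refine Finset.sum_congr rfl fun σ hσ => ?_
      rw [hcK, (hS ρ σ).1 hσ]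
    rw [h1, h2, h3, Finset.sum_const, hScard, Finsupp.smul_apply]

/-- the transcendence degree of a covering -/
theorem trdeg_below {n : ℕ} (hK : Algebra.trdeg ℂ K = (n : ℕ)) :
    Algebra.trdeg ℂ F = (n : ℕ) := by
  have h1 : Algebra.trdeg ℂ F + Algebra.trdeg F K = Algebra.trdeg ℂ K := trdeg_add_eq ℂ F
  have h2 : Algebra.trdeg F K = 0 := trdeg_eq_zero
  rw [h2, add_zero] at h1
  rw [h1, hK]

end

section

variable {F K Ω : Type} [Field F] [Field K] [Field Ω] [Algebra ℂ F] [Algebra ℂ K] [Algebra ℂ Ω]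
  [Algebra F K] [IsScalarTower ℂ F K] [FiniteDimensional F K] [IsAlgClosed Ω]

/-- **Pullbacks from a common quotient.** -/
theorem common [Algebra.EssFiniteType ℂ K] {n : ℕ} (hK : Algebra.trdeg ℂ K = (n : ℕ))
    (hΩ : Algebra.trdeg ℂ Ω = (n : ℕ)) {x : Fin n → K} (hx : IsTranscendenceBasis ℂ x)
    {c : (F →ₐ[ℂ] Ω) →₀ ℤ} {c' : (K →ₐ[ℂ] Ω) →₀ ℤ}
    (hc' : ∀ σ, c' σ = c (σ.comp (IsScalarTower.toAlgHom ℂ F K)))
    (hconst : ∀ σ τ : K →ₐ[ℂ] Ω, (∀ i, σ (x i) = τ (x i)) → c' σ = c' τ) :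
    (∀ ρ ρ' : F →ₐ[ℂ] Ω, (∀ a : F, algebraMap F K a ∈ base x → ρ a = ρ' a) → c ρ = c ρ') ∧
    (c ≠ 0 → ∀ a : K,
      IsAlgebraic ((IsScalarTower.toAlgHom ℂ F K).fieldRange ⊓ base x : IntermediateField ℂ K)
        a) := by
  obtain ⟨F', hF'⟩ : ∃ F' : IntermediateField ℂ K,
      F' = (IsScalarTower.toAlgHom ℂ F K).fieldRange := ⟨_, rfl⟩
  rw [← hF']
  have hmem : ∀ a : F, algebraMap F K a ∈ F' := by
    intro a
    rw [hF']
    exact ⟨a, rfl⟩
  have hmem' : ∀ a ∈ F', ∃ b : F, algebraMap F K b = a := by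
    intro a ha
    rw [hF'] at ha
    obtain ⟨b, hb⟩ := ha
    exact ⟨b, hb⟩
  have hA : ∀ a : K, IsAlgebraic F' a := by
    intro a
    have h1 : IsAlgebraic F a := Algebra.IsAlgebraic.isAlgebraic a
    let j1 : Algebra F F' := ((IsScalarTower.toAlgHom ℂ F K : F →+* K).codRestrict
      F'.toSubfield.toSubring fun a => hmem a).toAlgebra
    have j2 : IsScalarTower F F' K := IsScalarTower.of_algebraMap_eq fun _ => rfl
    exact h1.extendScalars (algebraMap F F').injective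
  have hfb : FiniteDimensional (base x) K := finite_base hx
  have hB : ∀ a : K, IsAlgebraic (base x) a := by
    intro a
    exact (Algebra.IsAlgebraic.isAlgebraic a : IsAlgebraic (base x) a)
  have hres : ∀ σ τ : K →ₐ[ℂ] Ω, (∀ a ∈ F', σ a = τ a) → c' σ = c' τ := by
    intro σ τ h
    rw [hc', hc']
    congr 1
    ext a
    exact h _ (hmem a)
  have hbas : ∀ σ τ : K →ₐ[ℂ] Ω, (∀ a ∈ base x, σ a = τ a) → c' σ = c' τ := fun σ τ h =>
    hconst σ τ fun i => h _ (IntermediateField.subset_adjoin ℂ _ ⟨i, rfl⟩)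
  have key : ∀ σ : K →ₐ[ℂ] Ω, c' σ ≠ 0 → _ := fun σ h => meet (fun σ b => alg_over hK hΩ F' hA σ b)
    (fun σ b => alg_over hK hΩ (base x) hB σ b) hres hbas h
  constructor
  · have main : ∀ ρ ρ' : F →ₐ[ℂ] Ω, (∀ a : F, algebraMap F K a ∈ base x → ρ a = ρ' a) →
        c ρ ≠ 0 → c ρ' = c ρ := by
      intro ρ ρ' h h0
      obtain ⟨σ, hσ⟩ := restr_surj (K' := K) ρ
      obtain ⟨σ', hσ'⟩ := restr_surj (K' := K) ρ'
      have h1 : c' σ = c ρ := by
        rw [hc']
        congr 1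
      have h2 : c' σ' = c ρ' := by
        rw [hc']
        congr 1
      rw [← h1, ← h2]
      rw [← h1] at h0
      refine (key σ h0).2 σ' fun a haF haB => ?_
      obtain ⟨b, rfl⟩ := hmem' a haF
      have h3 := h b haB
      rw [← hσ, ← hσ'] at h3
      exact h3.symm
    intro ρ ρ' h
    by_cases h0 : c ρ = 0
    · by_contra h1
      have h2 : c ρ' ≠ 0 := fun h3 => h1 (h0.trans h3.symm)
      exact h1 (main ρ' ρ (fun a ha => (h a ha).symm) h2)
    · exact (main ρ ρ' h h0).symm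
  · intro h a
    obtain ⟨ρ, hρ⟩ := Finsupp.ne_iff.1 h
    obtain ⟨σ, hσ⟩ := restr_surj (K' := K) ρ
    have h1 : c' σ = c ρ := by
      rw [hc']
      congr 1
    have h0 : c' σ ≠ 0 := by
      rw [h1]
      exact hρ
    exact (key σ h0).1 a

end

end Pool.Agent.Run7.h541.Pf
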