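import Pool.Agent.Run7.h541.Pf.Mon

/-!
# The relations between the conjugates, if the forms generate the elements of trace zero
-/

set_option autoImplicit false
set_option linter.overlappingInstances false
set_option linter.unusedSectionVars false
set_option linter.unusedVariables false

namespace Pool.Agent.Run7.h541.Pf

variable {K : Type} [Field K] [Algebra ℂ K] {n : ℕ}

theorem only_of_span [Algebra.EssFiniteType ℂ K] {x : Fin n → K}
    (hx : IsTranscendenceBasis ℂ x) {k : ℕ} (h : SpansTraceZero x k) : OnlyTrace x k := by
  classical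
  intro a ha σ τ
  have hfin := finite_base hx
  have hcM : CharZero (base x) :=
    charZero_of_injective_algebraMap (algebraMap ℂ (base x)).injective
  have hcE : CharZero (AlgebraicClosure (base x)) :=
    charZero_of_injective_algebraMap (algebraMap (base x) (AlgebraicClosure (base x))).injective
  obtain ⟨N, hN⟩ : ∃ N : ℕ, N = Module.finrank (base x) K := ⟨_, rfl⟩
  have hN0 : (N : base x) ≠ 0 := by
    rw [hN]
    exact_mod_cast Module.finrank_pos.ne'
  have hN0' : (N : AlgebraicClosure (base x)) ≠ 0 := by
    rw [hN]
    exact_mod_cast Module.finrank_pos.ne'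
  have h1 : ∀ f ∈ Submodule.span (base x) {g : K | Coeff x k g},
      ∑ τ : K →ₐ[base x] AlgebraicClosure (base x),
        (a τ : AlgebraicClosure (base x)) * τ f = 0 := by
    intro f hf
    induction hf using Submodule.span_induction with
    | mem f hf =>
      have h2 := ha f hf
      rwa [Finsupp.sum_fintype _ _ (fun τ => by rw [Int.cast_zero, zero_mul])] at h2
    | zero => exact Finset.sum_eq_zero fun τ _ => by rw [map_zero, mul_zero]
    | add f g _ _ hf hg =>
      have h3 : ∀ τ : K →ₐ[base x] AlgebraicClosure (base x),
          (a τ : AlgebraicClosure (base x)) * τ (f + g) =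
            (a τ : AlgebraicClosure (base x)) * τ f + (a τ : AlgebraicClosure (base x)) * τ g := by
        intro τ
        rw [map_add, mul_add]
      rw [Finset.sum_congr rfl fun τ _ => h3 τ, Finset.sum_add_distrib, hf, hg, add_zero]
    | smul r f _ hf =>
      have h2 : ∀ τ : K →ₐ[base x] AlgebraicClosure (base x),
          (a τ : AlgebraicClosure (base x)) * τ (r • f) =
            algebraMap (base x) _ r * ((a τ : AlgebraicClosure (base x)) * τ f) := by
        intro τ
        rw [map_smul, Algebra.smul_def]
        ring
      rw [Finset.sum_congr rfl fun τ _ => h2 τ, ← Finset.mul_sum, hf, mul_zero]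
  obtain ⟨A, hA⟩ : ∃ A : AlgebraicClosure (base x),
    A = ∑ τ : K →ₐ[base x] AlgebraicClosure (base x), (a τ : AlgebraicClosure (base x)) :=
    ⟨_, rfl⟩
  have h2 : ∀ z : K, ∑ τ : K →ₐ[base x] AlgebraicClosure (base x),
      ((N : AlgebraicClosure (base x)) * (a τ : AlgebraicClosure (base x)) - A) * τ z = 0 := by
    intro z
    have h3 := h1 (z - algebraMap (base x) K (Algebra.trace (base x) K z / N)) (h _ (by
      rw [map_sub, Algebra.trace_algebraMap, ← hN, nsmul_eq_mul, mul_div_cancel₀ _ hN0, sub_self]))
    have h4 : ∀ τ : K →ₐ[base x] AlgebraicClosure (base x),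
        (a τ : AlgebraicClosure (base x)) *
          τ (z - algebraMap (base x) K (Algebra.trace (base x) K z / N)) =
        (a τ : AlgebraicClosure (base x)) * τ z - (a τ : AlgebraicClosure (base x)) *
          algebraMap (base x) _ (Algebra.trace (base x) K z / N) := by
      intro τ
      rw [map_sub, AlgHom.commutes, mul_sub]
    rw [Finset.sum_congr rfl fun τ _ => h4 τ, Finset.sum_sub_distrib, ← Finset.sum_mul, ← hA,
      map_div₀, map_natCast, trace_eq_sum_embeddings (AlgebraicClosure (base x))] at h3
    simp only [sub_mul, Finset.sum_sub_distrib]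
    rw [← Finset.mul_sum]
    have h5 : ∑ τ : K →ₐ[base x] AlgebraicClosure (base x),
        (N : AlgebraicClosure (base x)) * (a τ : AlgebraicClosure (base x)) * τ z =
        N * ∑ τ : K →ₐ[base x] AlgebraicClosure (base x),
          (a τ : AlgebraicClosure (base x)) * τ z := by
      rw [Finset.mul_sum]
      exact Finset.sum_congr rfl fun τ _ => by ring
    rw [h5, sub_eq_zero.1 h3]
    field_simp
    ring
  have h3 : ∀ τ : K →ₐ[base x] AlgebraicClosure (base x),
      (N : AlgebraicClosure (base x)) * (a τ : AlgebraicClosure (base x)) - A = 0 := by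
    have h4 := linearIndependent_monoidHom K (AlgebraicClosure (base x))
    have h5 := h4.comp (fun τ : K →ₐ[base x] AlgebraicClosure (base x) =>
      ((τ : K →+* AlgebraicClosure (base x)) : K →* AlgebraicClosure (base x))) (by
        intro τ τ' h
        ext z
        exact congrArg (fun g : K →* AlgebraicClosure (base x) => g z) h)
    rw [Fintype.linearIndependent_iff] at h5
    refine h5 _ ?_
    funext z
    have h6 := h2 z
    rw [Finset.sum_apply, Pi.zero_apply, ← h6]
    exact Finset.sum_congr rfl fun τ _ => rfl
  have h4 := (sub_eq_zero.1 (h3 σ)).trans (sub_eq_zero.1 (h3 τ)).symm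
  have h5 := mul_left_cancel₀ hN0' h4
  exact_mod_cast h5

end Pool.Agent.Run7.h541.Pf
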