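import Pool.Agent.N162.BC.Defs

/-!
# Generically finite maps to affine space: definitions

`K` is the function field of a variety `T` of dimension `n` over `ℂ`, and `x = (x_1, …, x_n)` are
algebraically independent elements of `K`, that is a generically finite rational map from `T` to the
affine or the projective space of dimension `n`.
-/

set_option autoImplicit false

namespace Pool.Agent.Run7.h541.Pf

open Pool.Agent.N162.BC

section

variable {K Ω : Type} [Field K] [Algebra ℂ K] [Field Ω] [Algebra ℂ Ω] {n : ℕ}

/-- The rational canonical form `f dx_1 ∧ ⋯ ∧ dx_n`. -/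
noncomputable def coordForm (x : Fin n → K) (f : K) (D : Fin n → Derivation ℂ K K) : K :=
  (Matrix.of fun i j => D i (x j)).det * f

/-- The forms `P(x_1, …, x_n) f dx_1 ∧ ⋯ ∧ dx_n` are global canonical forms for all polynomials `P`
of degree at most `k`: the form `f dx_1 ∧ ⋯ ∧ dx_n` vanishes on the pullback of `k` times the
hyperplane at infinity. -/
def Coeff (x : Fin n → K) (k : ℕ) (f : K) : Prop :=
  ∀ P : MvPolynomial (Fin n) ℂ, P.totalDegree ≤ k →
    GlobalForm n (coordForm x (MvPolynomial.aeval x P * f))

/-- The function field `ℂ(x_1, …, x_n)` of the affine space, as a subfield of the function field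
of `T`. -/
noncomputable def base (x : Fin n → K) : IntermediateField ℂ K := IntermediateField.adjoin ℂ (Set.range x)

/-- The number of the points of the affine space to which the points of `c` are mapped. -/
noncomputable def numPoints (x : Fin n → K) (c : (K →ₐ[ℂ] Ω) →₀ ℤ) : ℕ :=
  Set.ncard {v : Fin n → Ω | ∃ σ : K →ₐ[ℂ] Ω, c σ ≠ 0 ∧ ∀ i, v i = σ (x i)}

/-- The points of the affine space to which the points of `c` are mapped impose independent
conditions on the polynomials of degree at most `k`: for each of these points there is a polynomial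
over `Ω` of degree at most `k` which vanishes at all the others but not at this one. -/
def Independent (x : Fin n → K) (k : ℕ) (c : (K →ₐ[ℂ] Ω) →₀ ℤ) : Prop :=
  ∀ σ : K →ₐ[ℂ] Ω, c σ ≠ 0 → ∃ P : MvPolynomial (Fin n) Ω, P.totalDegree ≤ k ∧
    MvPolynomial.eval (fun i => σ (x i)) P ≠ 0 ∧
    ∀ τ : K →ₐ[ℂ] Ω, c τ ≠ 0 → (∃ i, τ (x i) ≠ σ (x i)) →
      MvPolynomial.eval (fun i => τ (x i)) P = 0

end

section

variable (M K : Type) [Field M] [Field K] [Algebra M K]

/-- The integral linear relations between the conjugates over `M`, which hold for all the elements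
of `A ⊆ K`, are multiples of the trace. -/
def TrivialRelations (A : Set K) : Prop :=
  ∀ a : (K →ₐ[M] AlgebraicClosure M) →₀ ℤ,
    (∀ f ∈ A, (a.sum fun τ z => (z : AlgebraicClosure M) * τ f) = 0) → ∀ σ τ, a σ = a τ

/-- The set `A ⊆ K` generates the elements of trace zero over `M`. -/
def GeneratesTraceZero (A : Set K) : Prop :=
  ∀ f : K, Algebra.trace M K f = 0 → f ∈ Submodule.span M A

/-- The Galois group over `M` is doubly transitive on the embeddings of `K` in an algebraic closure
of `M`. -/
def TwoTransitive : Prop :=
  ∀ σ₁ σ₂ τ₁ τ₂ : K →ₐ[M] AlgebraicClosure M, σ₁ ≠ σ₂ → τ₁ ≠ τ₂ →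
    ∃ g : AlgebraicClosure M ≃ₐ[M] AlgebraicClosure M,
      (∀ a, g (σ₁ a) = τ₁ a) ∧ ∀ a, g (σ₂ a) = τ₂ a

end

section

variable {K : Type} [Field K] [Algebra ℂ K] {n : ℕ}

/-- The integral linear relations, between the conjugates over `ℂ(x_1, …, x_n)`, which hold for the
coefficients of all the forms which vanish on `k` times the hyperplane at infinity, are multiples
of the trace. -/
def OnlyTrace (x : Fin n → K) (k : ℕ) : Prop :=
  TrivialRelations (base x) K {f | Coeff x k f}

/-- The coefficients of the forms which vanish on `k` times the hyperplane at infinity generate the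
space of the elements of trace zero over `ℂ(x_1, …, x_n)`. -/
def SpansTraceZero (x : Fin n → K) (k : ℕ) : Prop :=
  GeneratesTraceZero (base x) K {f | Coeff x k f}

/-- The Galois group over `ℂ(x_1, …, x_n)` is doubly transitive on the points of the generic
fibre. -/
def DoublyTransitive (x : Fin n → K) : Prop := TwoTransitive (base x) K

end

end Pool.Agent.Run7.h541.Pf
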