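import Pool.Agent.N162.BC.Pull

/-!
# The fibre of a function on the generic curve of a fibration is a principal divisor

The first part follows `Pool.Agent.N162.BC.fibre_aux`.
-/

set_option autoImplicit false
set_option linter.overlappingInstances false
set_option linter.unusedSectionVars false
set_option linter.unusedDecidableInType false
set_option linter.unusedFintypeInType false
set_option linter.unusedVariables false
set_option maxHeartbeats 4000000
set_option synthInstance.maxHeartbeats 400000

open FF Polynomial Pool.Agent.W603.LV IntermediateField Pool.Agent.W619.PQ Pool.Agent.N162.BC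

namespace Pool.Agent.Run7.h541.Pf

open Classical in
theorem fibre_pt_aux (L K Ω F : Type) [Field L] [Field K] [Field Ω] [Field F] [Algebra L K]
    [Algebra L Ω] [Algebra L F] [Algebra F Ω] [IsScalarTower L F Ω]
    [IsAlgClosed Ω] [CharZero Ω] [IsAlgClosed F] [Algebra.IsAlgebraic L F]
    [IsFF L K] (h : algebraicClosure L K = ⊥) {x : K} (hx : Transcendental L x) (υ : Ω) :
    ∃ (M : Type) (_ : Field M) (_ : Algebra Ω M) (_ : Algebra K M) (_ : IsFF Ω M),
      (∀ l : L, algebraMap Ω M (algebraMap L Ω l) = algebraMap K M (algebraMap L K l)) ∧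
      ∃ f : M, f ≠ 0 ∧ ∀ σ : K →ₐ[L] Ω, ∃ P : Place Ω M,
        P.ord f = (if σ x = υ then 1 else 0) ∧
        ∀ v : Place Ω M, (∀ κ : K, Ge v 1 (algebraMap K M κ - algebraMap Ω M (σ κ))) ↔ v = P := by
  have hcL : CharZero L := (algebraMap L Ω).charZero
  have hcK : CharZero K := (algebraMap L K).charZero_iff (algebraMap L K).injective |>.1 hcL
  have hcF : CharZero F := charZero_of_injective_algebraMap (algebraMap L F).injective
  obtain ⟨K₁, hK₁, a1, a2, a3, a4, a5, hFF1, LD, FR⟩ := constr L K F h
  have GEN := gen_of_fr (L := L) FR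
  have hcK₁ : CharZero K₁ := charZero_of_injective_algebraMap (algebraMap F K₁).injective
  have h' : algebraicClosure F K₁ = ⊥ := by
    rw [eq_bot_iff]
    intro z hz
    rw [mem_algebraicClosure_iff] at hz
    obtain ⟨c, hc⟩ := Pool.Agent.W602.GT.const_of_algebraic hz
    rw [hc]
    exact IntermediateField.algebraMap_mem _ _
  obtain ⟨M, hMf, b1, b2, b3, b4, b5, hFF2, hlin, hM⟩ := constr F K₁ Ω h'
  have hcM : CharZero M := charZero_of_injective_algebraMap (algebraMap Ω M).injective
  let b6 : Algebra K M := ((algebraMap K₁ M).comp (algebraMap K K₁)).toAlgebra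
  have hb6 : ∀ κ : K, algebraMap K M κ = algebraMap K₁ M (algebraMap K K₁ κ) := fun κ => rfl
  have b7 : IsScalarTower K K₁ M := IsScalarTower.of_algebraMap_eq fun κ => rfl
  have halgK := alg_of_gen (L := L) GEN
  -- extension of points
  have hext : ∀ σ : K →ₐ[L] Ω, ∃ σ₁ : K₁ →ₐ[F] Ω, ∀ κ, σ₁ (algebraMap K K₁ κ) = σ κ := by
    intro σ
    obtain ⟨g, hg1, hg2⟩ := up (L := L) LD GEN (algebraMap F Ω) (σ : K →+* Ω) (fun l => by
      rw [← IsScalarTower.algebraMap_apply L F Ω]
      exact (σ.commutes l).symm)
    exact ⟨{ g with commutes' := hg1 }, hg2⟩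
  choose ext hext using hext
  have hextu : ∀ (τ : K₁ →ₐ[F] Ω) (σ : K →ₐ[L] Ω), (∀ κ, τ (algebraMap K K₁ κ) = σ κ) →
      τ = ext σ := by
    intro τ σ hτ
    have h1 : (τ : K₁ →+* Ω) = (ext σ : K₁ →+* Ω) := by
      refine up_unique GEN (fun α => ?_) (fun κ => ?_)
      · change τ (algebraMap F K₁ α) = ext σ (algebraMap F K₁ α)
        rw [AlgHom.commutes, AlgHom.commutes]
      · change τ (algebraMap K K₁ κ) = ext σ (algebraMap K K₁ κ)
        rw [hτ, hext]
    ext z
    exact congrArg (fun g : K₁ →+* Ω => g z) h1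
  have hx₁ : Transcendental F (algebraMap K K₁ x) := transc_up' LD hx
  have hxM : Transcendental Ω (algebraMap K₁ M (algebraMap K K₁ x)) := transc_up hlin hx₁
  obtain ⟨f, hf⟩ : ∃ f : M, f = algebraMap K₁ M (algebraMap K K₁ x) - algebraMap Ω M υ :=
    ⟨_, rfl⟩
  have hf0 : f ≠ 0 := by
    intro h0
    apply hxM
    rw [hf, sub_eq_zero] at h0
    rw [h0]
    exact isAlgebraic_algebraMap υ
  refine ⟨M, hMf, b1, b6, hFF2, ?_, f, hf0, ?_⟩
  · intro l
    rw [hb6, ← IsScalarTower.algebraMap_apply L K K₁, IsScalarTower.algebraMap_apply L F K₁,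
      ← tower (F := F) (K := K₁) (Ω := Ω) (M := M), ← IsScalarTower.algebraMap_apply L F Ω]
  · intro σ
    obtain ⟨P, hP⟩ := exists_place_cen hlin hM (ext σ)
    have hun := gen_unif hM hP hx₁
    rw [hext] at hun
    refine ⟨P, ?_, fun v => ?_⟩
    · split_ifs with hσ
      · rw [hf, ← hσ, hun]
      · have h2 : f = algebraMap Ω M (σ x - υ) +
            (algebraMap K₁ M (algebraMap K K₁ x) - algebraMap Ω M (σ x)) := by
          rw [hf, map_sub]
          ring
        have h3 : σ x - υ ≠ 0 := sub_ne_zero.2 hσ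
        have h4 : algebraMap K₁ M (algebraMap K K₁ x) - algebraMap Ω M (σ x) ≠ 0 := by
          intro h0
          rw [h0, P.ord_zero] at hun
          omega
        rw [h2]
        have h3' : algebraMap Ω M (σ x - υ) ≠ 0 := by
          rw [Ne, map_eq_zero]
          exact h3
        have h5 := P.ord_add_eq h3' h4 (by rw [P.ord_const h3, hun]; norm_num)
        rw [h5.2, P.ord_const h3]
    constructor
    · intro hv
      have hgen0 : ∀ κ : K, κ ≠ 0 → v.ord (algebraMap K M κ) = 0 := by
        intro e he
        have h1 := hv e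
        have h2 : σ e ≠ 0 := by simpa using he
        have h3 : algebraMap Ω M (σ e) ≠ 0 := by simpa using h2
        rcases h1 with h1 | h1
        · rw [sub_eq_zero.1 h1]
          exact v.ord_const h2
        · by_cases h0 : algebraMap K M e - algebraMap Ω M (σ e) = 0
          · rw [h0, v.ord_zero] at h1
            omega
          have h5 := v.ord_add_eq h3 h0 (by rw [v.ord_const h2]; omega)
          rw [add_sub_cancel, v.ord_const h2] at h5
          exact h5.2
      let v' : Place K M :=
        { ord := v.ord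
          ord_zero := v.ord_zero
          ord_mul := v.ord_mul
          ord_add := v.ord_add
          ord_const := fun {κ} hκ => hgen0 κ hκ
          surj := v.surj }
      have hgen : Gen K₁ v := by
        intro e he
        have h1 : IsAlgebraic K (algebraMap K₁ M e) := (halgK.isAlgebraic e).algebraMap
        exact v'.ord_eq_zero_of_isAlgebraic (by simpa using he) h1
      obtain ⟨τ, hτ⟩ := exists_cen (F := F) hgen
      have h2 : τ = ext σ := by
        refine hextu τ σ fun κ => ?_
        have h3 := (hτ (algebraMap K K₁ κ)).sub (hv κ)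
        rw [hb6, sub_sub_sub_cancel_left, ← map_sub] at h3
        exact (sub_eq_zero.1 (not_ge_const h3)).symm
      rw [h2] at hτ
      exact gen_unique hM hτ hP
    · rintro rfl κ
      have h1 := hP (algebraMap K K₁ κ)
      rw [hext] at h1
      exact h1

open Classical in
/-- **The fibre over a value of a function.** -/
theorem fibre_pt (L K Ω : Type) [Field L] [Field K] [Field Ω] [Algebra L K] [Algebra L Ω]
    [IsAlgClosed Ω] [CharZero Ω] [IsFF L K] (h : algebraicClosure L K = ⊥) {x : K}
    (hx : Transcendental L x) (υ : Ω) :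
    ∃ (M : Type) (_ : Field M) (_ : Algebra Ω M) (_ : Algebra K M) (_ : IsFF Ω M),
      (∀ l : L, algebraMap Ω M (algebraMap L Ω l) = algebraMap K M (algebraMap L K l)) ∧
      ∃ f : M, f ≠ 0 ∧ ∀ σ : K →ₐ[L] Ω, ∃ P : Place Ω M,
        P.ord f = (if σ x = υ then 1 else 0) ∧
        ∀ v : Place Ω M, (∀ κ : K, Ge v 1 (algebraMap K M κ - algebraMap Ω M (σ κ))) ↔ v = P := by
  have hcL : CharZero L := (algebraMap L Ω).charZero
  have hFc : IsAlgClosed (algebraicClosure L Ω) := IsAlgClosure.isAlgClosed L
  have hFa : Algebra.IsAlgebraic L (algebraicClosure L Ω) := IsAlgClosure.isAlgebraic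
  exact fibre_pt_aux L K Ω (algebraicClosure L Ω) h hx υ

end Pool.Agent.Run7.h541.Pf
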