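import Pool.Agent.Run7.h541.Pf.Fib

/-!
# Cycles which are constant on the fibres of a map to affine space are rationally equivalent to zero
-/

set_option autoImplicit false
set_option linter.overlappingInstances false
set_option linter.unusedSectionVars false
set_option linter.unusedDecidableInType false
set_option linter.unusedFintypeInType false
set_option linter.unusedVariables false
set_option maxHeartbeats 4000000
set_option synthInstance.maxHeartbeats 400000

open FF Polynomial Pool.Agent.W603.LV IntermediateField Pool.Agent.W619.PQ Pool.Agent.N162.BC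

namespace Pool.Agent.Run7.h541.Pf

section

variable {K Ω : Type} [Field K] [Algebra ℂ K] [Field Ω] [Algebra ℂ Ω]

open Classical in
/-- the part of a fibre on one curve of the fibration -/
theorem block_mem [Algebra.EssFiniteType ℂ K] [IsAlgClosed Ω] (L : IntermediateField ℂ K)
    (hLt : Algebra.trdeg L K = 1) (hLK : ∀ a : K, IsAlgebraic L a → a ∈ L) {y : K}
    (hy : Transcendental L y) (u : L →ₐ[ℂ] Ω) (υ : Ω) {c : (K →ₐ[ℂ] Ω) →₀ ℤ}
    (hc : ∀ σ, c σ = if σ.comp L.val = u ∧ σ y = υ then 1 else 0) : c ∈ Rat K Ω := by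
  have hcΩ : CharZero Ω := charZero_of_injective_algebraMap (algebraMap ℂ Ω).injective
  have hcL : CharZero L := charZero_of_injective_algebraMap (algebraMap ℂ L).injective
  have hess : Algebra.EssFiniteType L K := Algebra.EssFiniteType.of_comp ℂ L K
  have hFF : IsFF L K := ⟨hess, hLt⟩
  have hac : algebraicClosure L K = ⊥ := by
    rw [eq_bot_iff]
    intro a ha
    rw [mem_algebraicClosure_iff] at ha
    exact IntermediateField.mem_bot.2 ⟨⟨a, hLK a ha⟩, rfl⟩
  let i1 : Algebra L Ω := u.toRingHom.toAlgebra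
  have hi1 : ∀ l : L, algebraMap L Ω l = u l := fun l => rfl
  have i2 : IsScalarTower ℂ L Ω := IsScalarTower.of_algebraMap_eq fun z => by
    rw [hi1]
    exact (u.commutes z).symm
  let rs : (K →ₐ[L] Ω) → (K →ₐ[ℂ] Ω) := fun σ => σ.restrictScalars ℂ
  have hrs' : ∀ σ : K →ₐ[ℂ] Ω, σ.comp L.val = u → ∃ σ' : K →ₐ[L] Ω, rs σ' = σ := by
    intro σ hσ
    refine ⟨{ σ with commutes' := fun l => ?_ }, rfl⟩
    have h1 := congrArg (fun g : L →ₐ[ℂ] Ω => g l) hσ
    exact h1
  obtain ⟨M, hM, a1, a2, hMF, hLM, f, hf0, hf⟩ := fibre_pt L K Ω hac hy υ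
  refine AddSubgroup.subset_closure ⟨M, hM, a1, hMF, algebraMap K M, f, ?_, hf0, ?_⟩
  · intro z
    have h1 := hLM (algebraMap ℂ L z)
    rw [hi1, u.commutes] at h1
    rw [h1]
    rfl
  · intro σ
    rw [hc]
    by_cases hσ : σ.comp L.val = u
    · obtain ⟨σ', rfl⟩ := hrs' σ hσ
      obtain ⟨P, hP, hPv⟩ := hf σ'
      have h1 : {v : Place Ω M | CentredAt (algebraMap K M) v (rs σ')} = {P} := by
        ext v
        rw [Set.mem_ofPred_eq, Set.mem_singleton_iff, ← hPv v]
        unfold CentredAt Ge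
        refine forall_congr' fun κ => ?_
        have h2 : (rs σ') κ = σ' κ := rfl
        rw [h2, sub_eq_zero]
        constructor
        · rintro (h | h)
          · exact Or.inl h
          · exact Or.inr (by omega)
        · rintro (h | h)
          · exact Or.inl h
          · exact Or.inr (by omega)
      rw [h1, finsum_mem_singleton, hP]
      have h3 : (rs σ') y = σ' y := rfl
      by_cases h4 : σ' y = υ
      · rw [if_pos ⟨hσ, by rw [h3]; exact h4⟩, if_pos h4]
      · rw [if_neg (fun h5 => h4 (by rw [← h3]; exact h5.2)), if_neg h4]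
    · rw [if_neg (fun h => hσ h.1)]
      have h1 : {v : Place Ω M | CentredAt (algebraMap K M) v σ} = ∅ := by
        rw [Set.eq_empty_iff_forall_notMem]
        intro v hv
        apply hσ
        ext l
        have h2 : algebraMap K M (l : K) = algebraMap Ω M (u l) := by
          rw [← hi1, hLM]
          rfl
        have h3 : Ge v 1 (algebraMap Ω M (u l - σ (l : K))) := by
          rw [map_sub, ← h2]
          rcases hv (l : K) with h | h
          · exact Or.inl (sub_eq_zero.2 h)
          · exact Or.inr (by omega)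
        exact (sub_eq_zero.1 (not_ge_const h3)).symm
      rw [h1, finsum_mem_empty]

/-- cycles which are constant on the blocks -/
theorem rat_of_const [Algebra.EssFiniteType ℂ K] [IsAlgClosed Ω] (L : IntermediateField ℂ K)
    (hLt : Algebra.trdeg L K = 1) (hLK : ∀ a : K, IsAlgebraic L a → a ∈ L) {y : K}
    (hy : Transcendental L y) {c : (K →ₐ[ℂ] Ω) →₀ ℤ}
    (hc : ∀ σ τ : K →ₐ[ℂ] Ω, σ.comp L.val = τ.comp L.val → σ y = τ y → c σ = c τ) :
    c ∈ Rat K Ω := by
  classical
  obtain ⟨key, hkey⟩ : ∃ key : (K →ₐ[ℂ] Ω) → (L →ₐ[ℂ] Ω) × Ω,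
    key = fun σ => (σ.comp L.val, σ y) := ⟨_, rfl⟩
  have hkey' : ∀ σ τ, key σ = key τ ↔ σ.comp L.val = τ.comp L.val ∧ σ y = τ y := by
    intro σ τ
    rw [hkey]
    simp only [Prod.mk.injEq]
  have h1 : c = ∑ k ∈ c.support.image key, c.filter (fun σ => key σ = k) := by
    ext σ
    rw [Finset.sum_apply']
    simp only [Finsupp.filter_apply]
    rw [Finset.sum_ite_eq]
    split_ifs with h
    · rfl
    · by_contra hne
      exact h (Finset.mem_image_of_mem _ (Finsupp.mem_support_iff.2 hne))
  rw [h1]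
  refine sum_mem fun k hk => ?_
  obtain ⟨σ₀, hσ₀, rfl⟩ := Finset.mem_image.1 hk
  rw [Finsupp.mem_support_iff] at hσ₀
  obtain ⟨e, he⟩ : ∃ e : (K →ₐ[ℂ] Ω) →₀ ℤ, e = (c.filter (fun σ => key σ = key σ₀)).mapRange
    (fun z : ℤ => if z = 0 then 0 else 1) (by simp) := ⟨_, rfl⟩
  have he' : ∀ σ, e σ = if σ.comp L.val = σ₀.comp L.val ∧ σ y = σ₀ y then 1 else 0 := by
    intro σ
    rw [he, Finsupp.mapRange_apply, Finsupp.filter_apply]
    by_cases h : key σ = key σ₀
    · have h2 := (hkey' _ _).1 h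
      rw [if_pos h, if_pos h2, hc σ σ₀ h2.1 h2.2, if_neg hσ₀]
    · rw [if_neg h, if_pos rfl, if_neg (fun h2 => h ((hkey' _ _).2 h2))]
  have h2 : c.filter (fun σ => key σ = key σ₀) = c σ₀ • e := by
    ext σ
    rw [Finsupp.smul_apply, he', Finsupp.filter_apply]
    by_cases h : key σ = key σ₀
    · have h2 := (hkey' _ _).1 h
      rw [if_pos h, if_pos h2, hc σ σ₀ h2.1 h2.2, smul_eq_mul, mul_one]
    · rw [if_neg h, if_neg (fun h2 => h ((hkey' _ _).2 h2)), smul_zero]
  rw [h2]
  exact zsmul_mem (block_mem L hLt hLK hy (σ₀.comp L.val) (σ₀ y) he') _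

end

end Pool.Agent.Run7.h541.Pf
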