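import Pool.Agent.Run7.h541.Pf.RatA

/-!
# Cycles which are constant on the fibres of a generically finite map to affine space
-/

set_option autoImplicit false
set_option linter.overlappingInstances false
set_option linter.unusedSectionVars false
set_option linter.unusedVariables false
set_option maxHeartbeats 4000000
set_option synthInstance.maxHeartbeats 400000

open FF Polynomial Pool.Agent.N162.BC Pool.Agent.W603.LV Pool.Agent.W602.GT

namespace Pool.Agent.Run7.h541.Pf

theorem alg_of_le {F E : Type} [Field F] [Field E] [Algebra F E] {A B : IntermediateField F E}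
    (h : A ≤ B) {a : E} (ha : IsAlgebraic A a) : IsAlgebraic B a := by
  obtain ⟨p, hp, hpa⟩ := ha
  refine ⟨p.map (IntermediateField.inclusion h).toRingHom,
    (Polynomial.map_ne_zero_iff (IntermediateField.inclusion h).toRingHom.injective).2 hp, ?_⟩
  rw [aeval_def, eval₂_map]
  exact hpa

/-- the relative algebraic closure is algebraically closed -/
theorem closure_mem {F E : Type} [Field F] [Field E] [Algebra F E] {a : E}
    (ha : IsAlgebraic (algebraicClosure F E) a) : a ∈ algebraicClosure F E := by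
  rw [mem_algebraicClosure_iff]
  exact ha.restrictScalars F

variable {K Ω : Type} [Field K] [Algebra ℂ K] [Field Ω] [Algebra ℂ Ω]

open IntermediateField.algebraAdjoinAdjoin in
theorem rat_of_fibres [Algebra.EssFiniteType ℂ K] [IsAlgClosed Ω] {m : ℕ}
    (hK : Algebra.trdeg ℂ K = (m + 1 : ℕ)) {x : Fin (m + 1) → K}
    (hx : AlgebraicIndependent ℂ x) {c : (K →ₐ[ℂ] Ω) →₀ ℤ}
    (hc : ∀ σ τ : K →ₐ[ℂ] Ω, (∀ i, σ (x i) = τ (x i)) → c σ = c τ) : c ∈ Rat K Ω := by
  classical
  obtain ⟨L₀, hL₀⟩ : ∃ L₀ : IntermediateField ℂ K,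
    L₀ = IntermediateField.adjoin ℂ (x '' {Fin.last m}ᶜ) := ⟨_, rfl⟩
  obtain ⟨L, hL⟩ : ∃ L : IntermediateField ℂ K,
    L = (algebraicClosure L₀ K).restrictScalars ℂ := ⟨_, rfl⟩
  have hLm : ∀ a : K, a ∈ L ↔ IsAlgebraic L₀ a := by
    intro a
    rw [hL, IntermediateField.mem_restrictScalars, mem_algebraicClosure_iff]
  have hLK : ∀ a : K, IsAlgebraic L a → a ∈ L := by
    intro a ha
    rw [hL] at ha ⊢
    rw [IntermediateField.mem_restrictScalars]
    exact closure_mem ha
  have hxL : ∀ i : Fin m, x (Fin.castSucc i) ∈ L := by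
    intro i
    rw [hLm]
    have h1 : x (Fin.castSucc i) ∈ L₀ := by
      rw [hL₀]
      exact IntermediateField.subset_adjoin _ _ ⟨Fin.castSucc i, (Fin.castSucc_lt_last i).ne, rfl⟩
    exact isAlgebraic_algebraMap (⟨_, h1⟩ : L₀)
  have hy : Transcendental L (x (Fin.last m)) := by
    intro h
    have h1 := hLK _ h
    rw [hLm] at h1
    have h2 := ((AlgebraicIndependent.iff_transcendental_adjoin_image (Fin.last m)).1 hx).2
    apply h2
    rw [hL₀] at h1
    exact (IsFractionRing.isAlgebraic_iff (Algebra.adjoin ℂ (x '' {Fin.last m}ᶜ))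
      (IntermediateField.adjoin ℂ (x '' {Fin.last m}ᶜ)) K).2 h1
  have hz : AlgebraicIndependent ℂ (fun i : Fin m => (⟨x (Fin.castSucc i), hxL i⟩ : L)) := by
    have h1 := hx.comp (Fin.castSucc) (Fin.castSucc_injective m)
    exact AlgebraicIndependent.of_comp L.val h1
  have hLt : Algebra.trdeg L K = 1 := by
    have h1 := trdeg_add_eq ℂ L (A := K)
    rw [hK] at h1
    have h2 : (m : Cardinal.{0}) ≤ Algebra.trdeg ℂ L := by
      have h3 := hz.lift_cardinalMk_le_trdeg
      simpa using h3
    have h3 : (1 : Cardinal.{0}) ≤ Algebra.trdeg L K := by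
      have h4 : AlgebraicIndependent L (fun _ : Unit => x (Fin.last m)) := by
        rw [algebraicIndependent_unique_type_iff]
        exact hy
      have h5 := h4.lift_cardinalMk_le_trdeg
      simpa using h5
    have h4 : Algebra.trdeg L K < Cardinal.aleph0 := by
      refine lt_of_le_of_lt (?_ : _ ≤ ((m + 1 : ℕ) : Cardinal.{0})) Cardinal.natCast_lt_aleph0
      rw [← h1]
      exact self_le_add_left _ _
    have h5 : Algebra.trdeg ℂ L < Cardinal.aleph0 := by
      refine lt_of_le_of_lt (?_ : _ ≤ ((m + 1 : ℕ) : Cardinal.{0})) Cardinal.natCast_lt_aleph0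
      rw [← h1]
      exact self_le_add_right _ _
    obtain ⟨b, hb⟩ := Cardinal.lt_aleph0.1 h4
    obtain ⟨a, ha⟩ := Cardinal.lt_aleph0.1 h5
    rw [ha, hb] at h1
    rw [ha] at h2
    rw [hb] at h3 ⊢
    have e1 : a + b = m + 1 := by exact_mod_cast h1
    have e2 : m ≤ a := by exact_mod_cast h2
    have e3 : 1 ≤ b := by exact_mod_cast h3
    have e4 : b = 1 := by omega
    rw [e4, Nat.cast_one]
  refine rat_of_const L hLt hLK hy fun σ τ h1 h2 => hc σ τ fun i => ?_
  refine Fin.lastCases h2 (fun j => ?_) i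
  exact congrArg (fun g : L →ₐ[ℂ] Ω => g ⟨x (Fin.castSucc j), hxL j⟩) h1

end Pool.Agent.Run7.h541.Pf
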