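import Mathlib

/-!
# Points impose independent conditions on polynomials of large degree
-/

set_option autoImplicit false

open MvPolynomial

namespace Pool.Agent.Run7.h541.Pf

theorem sep_aux {Ω : Type} [Field Ω] [Algebra ℂ Ω] {n k : ℕ} {V : Finset (Fin n → Ω)}
    {g : (Fin n → Ω) → Ω}
    (h : ∀ P : MvPolynomial (Fin n) ℂ, P.totalDegree ≤ k → ∑ v ∈ V, g v * aeval v P = 0)
    (P : MvPolynomial (Fin n) Ω) (hP : P.totalDegree ≤ k) : ∑ v ∈ V, g v * eval v P = 0 := by
  have h1 : ∀ v : Fin n → Ω, eval v P = ∑ s ∈ P.support, P.coeff s *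
      aeval v (monomial s (1 : ℂ)) := by
    intro v
    rw [eval_eq']
    refine Finset.sum_congr rfl fun s _ => ?_
    rw [aeval_monomial, map_one, one_mul, Finsupp.prod_fintype _ _ (fun i => pow_zero _)]
  simp only [h1, Finset.mul_sum]
  rw [Finset.sum_comm]
  refine Finset.sum_eq_zero fun s hs => ?_
  have h2 := h (monomial s (1 : ℂ)) ((totalDegree_monomial_le s 1).trans
    ((le_totalDegree hs).trans hP))
  rw [Finset.sum_congr rfl fun v _ => by
    rw [show g v * (P.coeff s * aeval v (monomial s (1 : ℂ))) =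
      P.coeff s * (g v * aeval v (monomial s (1 : ℂ))) by ring], ← Finset.mul_sum, h2, mul_zero]

/-- few points impose independent conditions -/
theorem sep_poly {Ω : Type} [Field Ω] {n k : ℕ} {V : Finset (Fin n → Ω)}
    (hV : V.card ≤ k + 1) {v : Fin n → Ω} (hv : v ∈ V) :
    ∃ P : MvPolynomial (Fin n) Ω, P.totalDegree ≤ k ∧ eval v P ≠ 0 ∧
      ∀ u ∈ V, u ≠ v → eval u P = 0 := by
  classical
  have h1' : ∀ u : Fin n → Ω, ∃ Q : MvPolynomial (Fin n) Ω, Q.totalDegree ≤ 1 ∧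
      (u ≠ v → eval u Q = 0) ∧ (u ≠ v → eval v Q ≠ 0) := by
    intro u
    by_cases hu : u = v
    · exact ⟨1, by simp, fun h => absurd hu h, fun h => absurd hu h⟩
    · obtain ⟨j, hj⟩ := Function.ne_iff.1 hu
      refine ⟨X j - C (u j), ?_, fun _ => ?_, fun _ => ?_⟩
      · refine (totalDegree_sub_C_le _ _).trans ?_
        rw [totalDegree_X]
      · rw [map_sub, eval_X, eval_C, sub_self]
      · rw [map_sub, eval_X, eval_C]
        exact sub_ne_zero.2 (Ne.symm hj)
  choose Q hQ1 hQ2 hQ3 using h1'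
  refine ⟨∏ u ∈ V.erase v, Q u, ?_, ?_, fun u hu huv => ?_⟩
  · refine (totalDegree_finsetProd _ _).trans ?_
    refine (Finset.sum_le_sum fun u _ => hQ1 u).trans ?_
    rw [Finset.sum_const, smul_eq_mul, mul_one, Finset.card_erase_of_mem hv]
    omega
  · rw [map_prod]
    refine Finset.prod_ne_zero_iff.2 fun u hu => ?_
    exact hQ3 u (Finset.ne_of_mem_erase hu)
  · rw [map_prod]
    exact Finset.prod_eq_zero (Finset.mem_erase.2 ⟨huv, hu⟩) (hQ2 u huv)

theorem sep {Ω : Type} [Field Ω] [Algebra ℂ Ω] {n k : ℕ} {V : Finset (Fin n → Ω)}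
    {g : (Fin n → Ω) → Ω}
    (h : ∀ P : MvPolynomial (Fin n) ℂ, P.totalDegree ≤ k → ∑ v ∈ V, g v * aeval v P = 0)
    {v : Fin n → Ω} (hv : v ∈ V) (hP : ∃ P : MvPolynomial (Fin n) Ω, P.totalDegree ≤ k ∧
      eval v P ≠ 0 ∧ ∀ u ∈ V, u ≠ v → eval u P = 0) : g v = 0 := by
  classical
  obtain ⟨P, hPd, hPv, hPu⟩ := hP
  have h2 := sep_aux h P hPd
  rw [Finset.sum_eq_single v] at h2
  · exact (mul_eq_zero.1 h2).resolve_right hPv
  · intro u hu huv
    rw [hPu u hu huv, mul_zero]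
  · intro h3
    exact absurd hv h3

end Pool.Agent.Run7.h541.Pf
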