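import Pool.Agent.Run7.h541.Pf.Defs
import Pool.Agent.Run7.h541.Pf.Sep
import Pool.Agent.N645.GP.NTW

/-!
# The relations given by a null trace, on one fibre
-/

set_option autoImplicit false
set_option linter.overlappingInstances false
set_option linter.unusedSectionVars false
set_option linter.unusedVariables false
set_option maxHeartbeats 4000000
set_option synthInstance.maxHeartbeats 400000

open FF Pool.Agent.N162.BC Pool.Agent.W603.LV Pool.Agent.W602.GT MvPolynomial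

namespace Pool.Agent.Run7.h541.Pf

variable {K Ω : Type} [Field K] [Algebra ℂ K] [Field Ω] [Algebra ℂ Ω] {n : ℕ}

theorem pull_coord (σ : K →ₐ[ℂ] Ω) {x : Fin n → K} {E : Fin n → Derivation ℂ K K}
    (hE : ∀ i j, E i (x j) = if i = j then 1 else 0) (f : K) (D : Fin n → Derivation ℂ Ω Ω) :
    pullback σ x E (coordForm x f) D = (Matrix.of fun i j => D i (σ (x j))).det * σ f := by
  have h1 : (Matrix.of fun i j => E i (x j) : Matrix (Fin n) (Fin n) K) = 1 := by
    ext i j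
    rw [Matrix.of_apply, hE, Matrix.one_apply]
  unfold pullback coordForm
  rw [h1, Matrix.det_one, one_mul]

theorem numPoints_eq [DecidableEq (Fin n → Ω)] (x : Fin n → K) (c : (K →ₐ[ℂ] Ω) →₀ ℤ) :
    (c.support.image fun σ => fun i => σ (x i)).card = numPoints x c := by
  unfold numPoints
  rw [← Set.ncard_coe_finset]
  congr 1
  ext v
  rw [Finset.mem_coe, Finset.mem_image]
  constructor
  · rintro ⟨σ, hσ, rfl⟩
    exact ⟨σ, Finsupp.mem_support_iff.1 hσ, fun i => rfl⟩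
  · rintro ⟨σ, hσ, h⟩
    exact ⟨σ, Finsupp.mem_support_iff.2 hσ, (funext h).symm⟩

theorem independent_of_card {x : Fin n → K} {c : (K →ₐ[ℂ] Ω) →₀ ℤ} {k : ℕ}
    (hk : numPoints x c ≤ k + 1) : Independent x k c := by
  classical
  intro σ hσ
  obtain ⟨P, h1, h2, h3⟩ := sep_poly (V := c.support.image fun σ => fun i => σ (x i))
    (by rw [numPoints_eq]; exact hk)
    (Finset.mem_image_of_mem (fun (σ : K →ₐ[ℂ] Ω) i => σ (x i)) (Finsupp.mem_support_iff.2 hσ))
  refine ⟨P, h1, h2, fun τ hτ ⟨i, hi⟩ => h3 _ (Finset.mem_image_of_mem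
    (fun (σ : K →ₐ[ℂ] Ω) i => σ (x i)) (Finsupp.mem_support_iff.2 hτ)) fun h => hi ?_⟩
  exact congrFun h i

open Classical in
theorem rel_fibre {x : Fin n → K} (hx : IsTranscendenceBasis ℂ x) {c : (K →ₐ[ℂ] Ω) →₀ ℤ}
    (hc : NullTrace n c) {k : ℕ} (hI : Independent x k c) {f : K} (hf : Coeff x k f)
    (v : Fin n → Ω) :
    ∑ σ ∈ c.support with (fun i => σ (x i)) = v, (c σ : Ω) * σ f = 0 := by
  obtain ⟨pt, hpt⟩ : ∃ pt : (K →ₐ[ℂ] Ω) → (Fin n → Ω), pt = fun σ i => σ (x i) := ⟨_, rfl⟩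
  obtain ⟨V, hV⟩ : ∃ V : Finset (Fin n → Ω), V = c.support.image pt := ⟨_, rfl⟩
  by_cases hv : v ∈ V
  swap
  · refine Finset.sum_eq_zero fun σ hσ => ?_
    exfalso
    apply hv
    rw [Finset.mem_filter] at hσ
    rw [hV, Finset.mem_image]
    exact ⟨σ, hσ.1, by rw [hpt]; exact hσ.2⟩
  choose E hE using fun i : Fin n => Pool.Agent.W602.GT.exists_der x hx
    fun j => if i = j then (1 : K) else 0
  obtain ⟨D, hD⟩ := Pool.Agent.N645.GP.exists_generic c.support
    (fun (σ : K →ₐ[ℂ] Ω) j => σ (x j)) (fun σ _ => hx.1.map' (f := σ) σ.toRingHom.injective)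
  obtain ⟨J, hJ⟩ : ∃ J : (Fin n → Ω) → Ω, J = fun v => (Matrix.of fun i j => D i (v j)).det :=
    ⟨_, rfl⟩
  obtain ⟨S, hS⟩ : ∃ S : (Fin n → Ω) → Ω, S = fun v =>
    ∑ σ ∈ c.support with pt σ = v, (c σ : Ω) * σ f := ⟨_, rfl⟩
  have hrel : ∀ P : MvPolynomial (Fin n) ℂ, P.totalDegree ≤ k →
      ∑ v ∈ V, (J v * S v) * aeval v P = 0 := by
    intro P hP
    have h1 := hc _ (hf P hP) x E hx hE D
    have h2 := Finset.sum_fiberwise_of_maps_to (s := c.support) (t := V) (g := pt)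
      (fun σ hσ => by rw [hV]; exact Finset.mem_image_of_mem _ hσ)
      (fun σ => (c σ : Ω) * pullback σ x E (coordForm x (aeval x P * f)) D)
    rw [h1] at h2
    rw [← h2]
    refine Finset.sum_congr rfl fun v _ => ?_
    rw [hS]
    simp only [Finset.mul_sum, Finset.sum_mul]
    refine Finset.sum_congr rfl fun σ hσ => ?_
    have h3 : pt σ = v := (Finset.mem_filter.1 hσ).2
    rw [pull_coord σ hE, map_mul]
    have h4 : σ (aeval x P) = aeval v P := by
      rw [← h3, hpt]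
      exact MvPolynomial.comp_aeval_apply x σ P
    have h5 : (Matrix.of fun i j => D i (σ (x j))).det = J v := by
      rw [hJ, ← h3, hpt]
    rw [h4, h5]
    ring
  have h6 := sep hrel hv (by
    obtain ⟨σ, hσ, rfl⟩ := Finset.mem_image.1 (hV ▸ hv)
    obtain ⟨P, p1, p2, p3⟩ := hI σ (Finsupp.mem_support_iff.1 hσ)
    refine ⟨P, p1, by rw [hpt]; exact p2, fun u hu huv => ?_⟩
    obtain ⟨τ, hτ, rfl⟩ := Finset.mem_image.1 (hV ▸ hu)
    have h9 := p3 τ (Finsupp.mem_support_iff.1 hτ) (Function.ne_iff.1 (by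
      rw [hpt] at huv
      exact huv))
    rw [hpt]
    exact h9)
  have h7 : J v ≠ 0 := by
    rw [hV, Finset.mem_image] at hv
    obtain ⟨σ, hσ, rfl⟩ := hv
    have h8 := hD σ hσ
    rw [hJ, hpt]
    exact h8
  have h8 := (mul_eq_zero.1 h6).resolve_left h7
  rw [hS, hpt] at h8
  exact h8

end Pool.Agent.Run7.h541.Pf
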